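import Mathlib

set_option autoImplicit false

/-! Cubical Sperner lemma (Kuhn triangulation), used for the Brouwer fixed point theorem. -/

namespace Pool.Agent.Helper93.ETC

open Equiv

open Classical in
/-- abstract door counting -/
theorem door_count {n : ℕ} (g : Fin (n + 1) → ℕ) (hg : ∀ k, g k ≤ n) :
    (((Finset.univ.filter fun k : Fin (n + 1) =>
      ∀ c, 1 ≤ c → c ≤ n → ∃ j, j ≠ k ∧ g j = c).card : ℕ) : ZMod 2) =
    if (∀ c, c ≤ n → ∃ j, g j = c) then 1 else 0 := by
  -- a function on `n+1` points hitting all of `0..n` is injective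
  have key : ∀ k : Fin (n + 1), (∀ c, 1 ≤ c → c ≤ n → ∃ j, j ≠ k ∧ g j = c) →
      ∀ j₁ j₂, j₁ ≠ k → j₂ ≠ k → g j₁ = g j₂ → j₁ = j₂ := by
    intro k hk
    have hsub : Finset.Icc 1 n ⊆ (Finset.univ.erase k).image g := by
      intro c hc
      rw [Finset.mem_Icc] at hc
      obtain ⟨j, hj, rfl⟩ := hk c hc.1 hc.2
      exact Finset.mem_image_of_mem _ (Finset.mem_erase.2 ⟨hj, Finset.mem_univ _⟩)
    have hcard : ((Finset.univ.erase k).image g).card = (Finset.univ.erase k).card := by
      apply le_antisymm Finset.card_image_le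
      calc (Finset.univ.erase k).card = n := by
            rw [Finset.card_erase_of_mem (Finset.mem_univ _)]; simp
        _ = (Finset.Icc 1 n).card := by simp
        _ ≤ _ := Finset.card_le_card hsub
    have hinj := Finset.card_image_iff.1 hcard
    intro j₁ j₂ h₁ h₂ h
    exact hinj (by simp [h₁]) (by simp [h₂]) h
  have key2 : ∀ k : Fin (n + 1), (∀ c, 1 ≤ c → c ≤ n → ∃ j, j ≠ k ∧ g j = c) →
      ∀ j, j ≠ k → 1 ≤ g j := by
    intro k hk j hj
    by_contra h
    push Not at h
    have h0 : g j = 0 := by omega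
    have hsub : Finset.Icc 0 n ⊆ (Finset.univ.erase k).image g := by
      intro c hc
      rw [Finset.mem_Icc] at hc
      rcases Nat.eq_zero_or_pos c with rfl | hc1
      · exact Finset.mem_image.2 ⟨j, by simp [hj], h0⟩
      · obtain ⟨j, hj, rfl⟩ := hk c hc1 hc.2
        exact Finset.mem_image_of_mem _ (Finset.mem_erase.2 ⟨hj, Finset.mem_univ _⟩)
    have h1 := Finset.card_le_card hsub
    have h2 : ((Finset.univ.erase k).image g).card ≤ n := by
      refine Finset.card_image_le.trans ?_
      rw [Finset.card_erase_of_mem (Finset.mem_univ _)]; simp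
    simp at h1
    omega
  by_cases hs : ∀ c, c ≤ n → ∃ j, g j = c
  · rw [if_pos hs]
    obtain ⟨k, hk⟩ := hs 0 (Nat.zero_le _)
    have : (Finset.univ.filter fun k : Fin (n + 1) =>
      ∀ c, 1 ≤ c → c ≤ n → ∃ j, j ≠ k ∧ g j = c) = {k} := by
      ext l
      simp only [Finset.mem_filter, Finset.mem_univ, true_and, Finset.mem_singleton]
      constructor
      · intro hl
        by_contra hne
        have := key2 l hl k (fun h => hne h.symm)
        omega
      · rintro rfl c hc1 hc2
        obtain ⟨j, hj⟩ := hs c hc2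
        refine ⟨j, ?_, hj⟩
        rintro rfl
        omega
    rw [this]; simp
  · rw [if_neg hs]
    by_cases he : ∃ k, ∀ c, 1 ≤ c → c ≤ n → ∃ j, j ≠ k ∧ g j = c
    · obtain ⟨k, hk⟩ := he
      have hk1 : 1 ≤ g k := by
        by_contra h
        push Not at h
        apply hs
        intro c hc
        rcases Nat.eq_zero_or_pos c with rfl | hc1
        · exact ⟨k, by omega⟩
        · obtain ⟨j, _, hj⟩ := hk c hc1 hc
          exact ⟨j, hj⟩
      obtain ⟨l, hlk, hl⟩ := hk (g k) hk1 (hg k)
      have : (Finset.univ.filter fun k : Fin (n + 1) =>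
        ∀ c, 1 ≤ c → c ≤ n → ∃ j, j ≠ k ∧ g j = c) = {k, l} := by
        ext m
        simp only [Finset.mem_filter, Finset.mem_univ, true_and, Finset.mem_singleton,
          Finset.mem_insert]
        constructor
        · intro hm
          by_contra hne
          push Not at hne
          exact hlk (key m hm l k (fun h => hne.2 h.symm) (fun h => hne.1 h.symm) hl)
        · rintro (rfl | rfl)
          · exact hk
          · intro c hc1 hc2
            obtain ⟨j, hj, hjc⟩ := hk c hc1 hc2
            by_cases hjl : j = m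
            · subst hjl
              exact ⟨k, fun h => hlk h.symm, by rw [← hl]; exact hjc⟩
            · exact ⟨j, hjl, hjc⟩
      rw [this, Finset.card_pair (fun h => hlk h.symm)]
      rfl
    · push Not at he
      have : (Finset.univ.filter fun k : Fin (n + 1) =>
        ∀ c, 1 ≤ c → c ≤ n → ∃ j, j ≠ k ∧ g j = c) = ∅ := by
        ext m
        simp only [Finset.mem_filter, Finset.mem_univ, true_and, Finset.notMem_empty, iff_false]
        push Not
        exact he m
      rw [this]; simp


/-- `k`-th vertex of the Kuhn simplex with base point `v` and order `σ` -/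
def vert {n : ℕ} (v : Fin n → ℕ) (σ : Perm (Fin n)) (k : ℕ) : Fin n → ℕ :=
  fun i => v i + if ((σ.symm i : Fin n) : ℕ) < k then 1 else 0

/-- all Kuhn simplices of the grid -/
def simp (n N : ℕ) : Finset ((Fin n → ℕ) × Perm (Fin n)) :=
  (Fintype.piFinset fun _ => Finset.range N) ×ˢ Finset.univ

theorem mem_simp {n N : ℕ} {s : (Fin n → ℕ) × Perm (Fin n)} :
    s ∈ simp n N ↔ ∀ i, s.1 i < N := by
  simp [simp]

open Classical in
/-- completely labelled simplices -/
noncomputable def comp (n N : ℕ) (lam : (Fin n → ℕ) → ℕ) :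
    Finset ((Fin n → ℕ) × Perm (Fin n)) :=
  (simp n N).filter fun s => ∀ c, c ≤ n → ∃ k : Fin (n + 1), lam (vert s.1 s.2 k) = c

open Classical in
/-- doors with index `k` -/
noncomputable def door (n N : ℕ) (lam : (Fin n → ℕ) → ℕ) (k : Fin (n + 1)) :
    Finset ((Fin n → ℕ) × Perm (Fin n)) :=
  (simp n N).filter fun s =>
    ∀ c, 1 ≤ c → c ≤ n → ∃ j : Fin (n + 1), j ≠ k ∧ lam (vert s.1 s.2 j) = c

theorem vert_le {n N : ℕ} {s : (Fin n → ℕ) × Perm (Fin n)} (hs : s ∈ simp n N) (k : ℕ) (i : Fin n) :
    vert s.1 s.2 k i ≤ N := by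
  have := mem_simp.1 hs i
  unfold vert
  split_ifs <;> omega

theorem sum_door {n N : ℕ} (lam : (Fin n → ℕ) → ℕ)
    (h0 : ∀ x : Fin n → ℕ, (∀ i, x i ≤ N) → lam x ≤ n) :
    (∑ k : Fin (n + 1), ((door n N lam k).card : ZMod 2)) = ((comp n N lam).card : ZMod 2) := by
  classical
  have h1 : ∀ k : Fin (n + 1), ((door n N lam k).card : ZMod 2) =
      ∑ s ∈ simp n N, if (∀ c, 1 ≤ c → c ≤ n → ∃ j : Fin (n + 1), j ≠ k ∧
        lam (vert s.1 s.2 j) = c) then (1 : ZMod 2) else 0 := by
    intro k
    unfold door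
    rw [Finset.card_filter]
    push_cast
    rfl
  simp_rw [h1]
  rw [Finset.sum_comm]
  unfold comp
  rw [Finset.card_filter]
  push_cast
  apply Finset.sum_congr rfl
  intro s hs
  have := door_count (n := n) (fun k => lam (vert s.1 s.2 k)) (fun k => h0 _ (vert_le hs k))
  rw [Finset.card_filter] at this
  push_cast at this
  rw [this]

theorem vert_swap {n : ℕ} (v : Fin n → ℕ) (σ : Perm (Fin n)) (a b : Fin n) (hab : (a : ℕ) + 1 = b)
    (j : ℕ) (hj : j ≠ b) : vert v (σ * swap a b) j = vert v σ j := by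
  funext i
  unfold vert
  have : (σ * swap a b).symm i = swap a b (σ.symm i) := by
    rw [Equiv.symm_apply_eq]
    simp
  rw [this]
  congr 1
  by_cases h1 : σ.symm i = a
  · rw [h1, swap_apply_left]
    have : ((b : ℕ) < j) = ((a : ℕ) < j) := by
      apply propext; omega
    simp [this]
  · by_cases h2 : σ.symm i = b
    · rw [h2, swap_apply_right]
      have : ((a : ℕ) < j) = ((b : ℕ) < j) := by
        apply propext; omega
      simp [this]
    · rw [swap_apply_of_ne_of_ne h1 h2]

theorem door_mid {n N : ℕ} (lam : (Fin n → ℕ) → ℕ) (k : Fin (n + 1)) (hk0 : (k : ℕ) ≠ 0)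
    (hkn : (k : ℕ) ≠ n) : ((door n N lam k).card : ZMod 2) = 0 := by
  classical
  have hlt : (k : ℕ) < n := by have := k.2; omega
  set a : Fin n := ⟨(k : ℕ) - 1, by omega⟩ with ha
  set b : Fin n := ⟨(k : ℕ), hlt⟩ with hb
  have hab : (a : ℕ) + 1 = b := by simp [ha, hb]; omega
  have hne : a ≠ b := by
    intro h
    have := congrArg Fin.val h
    omega
  rw [Finset.card_eq_sum_ones]
  push_cast
  refine Finset.sum_involution (fun s _ => (s.1, s.2 * swap a b)) ?_ ?_ ?_ ?_
  · intro s _; rfl
  · intro s _ _ h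
    have h2 : s.2 * swap a b = s.2 := congrArg Prod.snd h
    have h3 : swap a b = 1 := by
      have := congrArg (fun t => s.2⁻¹ * t) h2
      simpa using this
    exact hne (by
      have := congrArg (fun t : Perm (Fin n) => t b) h3
      simpa using this)
  · intro s hs
    unfold door at hs ⊢
    rw [Finset.mem_filter] at hs ⊢
    have hm := mem_simp.1 hs.1
    refine ⟨by rw [mem_simp]; exact hm, ?_⟩
    intro c hc1 hc2
    obtain ⟨j, hj, hjc⟩ := hs.2 c hc1 hc2
    refine ⟨j, hj, ?_⟩
    rw [vert_swap _ _ a b hab j (fun h => hj (Fin.ext h))]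
    exact hjc
  · intro s _
    simp [mul_assoc]


theorem vert_rot {n : ℕ} (v : Fin (n + 1) → ℕ) (σ : Perm (Fin (n + 1))) (j : ℕ) (hj : j ≤ n) :
    vert (Function.update v (σ 0) (v (σ 0) + 1)) (σ * finRotate (n + 1)) j = vert v σ (j + 1) := by
  funext i
  unfold vert
  have h1 : (σ * finRotate (n + 1)).symm i = (finRotate (n + 1)).symm (σ.symm i) := by
    rw [Equiv.symm_apply_eq]
    simp
  rw [h1]
  by_cases hi : i = σ 0
  · subst hi
    have h2 : (finRotate (n + 1)).symm (σ.symm (σ 0)) = Fin.last n := by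
      rw [Equiv.symm_apply_eq]; simp
    rw [h2, Function.update_self]
    simp
    omega
  · rw [Function.update_of_ne hi]
    have h0 : σ.symm i ≠ 0 := by
      intro h
      apply hi
      rw [← h]; simp
    congr 1
    set x := σ.symm i with hx
    have h3 : (((finRotate (n + 1)).symm x : Fin (n + 1)) : ℕ) + 1 = x := by
      have h4 := Equiv.apply_symm_apply (finRotate (n + 1)) x
      set y := (finRotate (n + 1)).symm x with hy
      by_cases hl : y = Fin.last n
      · rw [hl] at h4
        simp at h4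
        exact absurd h4.symm h0
      · rw [← h4, coe_finRotate_of_ne_last hl]
    exact if_congr (by constructor <;> intro h <;> omega) rfl rfl

theorem vert_cons {n N : ℕ} (hN : 1 ≤ N) (v : Fin n → ℕ) (σ : Perm (Fin n)) (j : ℕ) :
    vert (Fin.cons (N - 1) v : Fin (n + 1) → ℕ) (Perm.decomposeFin.symm (0, σ)) (j + 1) =
      (Fin.cons N (vert v σ j) : Fin (n + 1) → ℕ) := by
  funext i
  unfold vert
  refine Fin.cases ?_ ?_ i
  · have h0 : (Perm.decomposeFin.symm ((0 : Fin (n + 1)), σ)).symm 0 = 0 := by
      rw [Equiv.symm_apply_eq]; simp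
    rw [h0]
    simp
    omega
  · intro i
    have h0 : (Perm.decomposeFin.symm ((0 : Fin (n + 1)), σ)).symm i.succ = (σ.symm i).succ := by
      rw [Equiv.symm_apply_eq]; simp
    rw [h0]
    simp

theorem door_zero_interior {n N : ℕ} (lam : (Fin (n + 1) → ℕ) → ℕ)
    (ha : ∀ x : Fin (n + 1) → ℕ, (∀ i, x i ≤ N) → ∀ i : Fin (n + 1), x i = 0 →
      lam x ≠ (i : ℕ) + 1) :
    ((door (n + 1) N lam 0).filter fun s => s.1 (s.2 0) + 1 < N).card =
      (door (n + 1) N lam (Fin.last (n + 1))).card := by
  classical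
  refine Finset.card_nbij'
    (fun s => (Function.update s.1 (s.2 0) (s.1 (s.2 0) + 1), s.2 * finRotate (n + 1)))
    (fun s => (Function.update s.1 (s.2 (Fin.last n)) (s.1 (s.2 (Fin.last n)) - 1),
      s.2 * (finRotate (n + 1))⁻¹)) ?_ ?_ ?_ ?_
  · intro s hs
    simp only [door, Finset.coe_filter, Finset.mem_filter, Set.mem_ofPred_eq] at hs ⊢
    obtain ⟨⟨hs1, hs2⟩, hs3⟩ := hs
    constructor
    · rw [mem_simp] at hs1 ⊢
      intro i
      by_cases hi : i = s.2 0
      · subst hi; simpa using hs3
      · simp only [Function.update_of_ne hi]; exact hs1 i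
    · intro c hc1 hc2
      obtain ⟨j, hj, hjc⟩ := hs2 c hc1 hc2
      have hj0 : (j : ℕ) ≠ 0 := fun h => hj (Fin.ext h)
      have hjlt := j.2
      refine ⟨⟨(j : ℕ) - 1, by omega⟩, ?_, ?_⟩
      · intro h
        have := congrArg Fin.val h
        simp at this
        omega
      · rw [vert_rot _ _ _ (by simp; omega)]
        have h5 : (j : ℕ) - 1 + 1 = j := by omega
        simp only [h5]
        exact hjc
  · intro s hs
    simp only [door, Finset.coe_filter, Finset.mem_filter, Set.mem_ofPred_eq] at hs ⊢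
    obtain ⟨hs1, hs2⟩ := hs
    set l := s.2 (Fin.last n) with hl
    have hpos : 0 < s.1 l := by
      by_contra h
      push Not at h
      obtain ⟨j, hj, hjc⟩ := hs2 ((l : ℕ) + 1) (by omega) (by have := l.2; omega)
      refine ha _ (vert_le hs1 j) l ?_ hjc
      unfold vert
      have h1 : s.2.symm l = Fin.last n := by rw [hl]; simp
      rw [h1]
      have h2 : (j : ℕ) ≠ n + 1 := fun h => hj (Fin.ext (by simpa using h))
      have h3 := j.2
      simp
      omega
    have hlN := mem_simp.1 hs1 l
    have hrot : (s.2 * (finRotate (n + 1))⁻¹) 0 = l := by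
      have : (finRotate (n + 1))⁻¹ 0 = Fin.last n := by
        rw [Perm.inv_eq_iff_eq]; simp
      rw [Perm.mul_apply, this]
    refine ⟨⟨?_, ?_⟩, ?_⟩
    · rw [mem_simp] at hs1 ⊢
      intro i
      by_cases hi : i = l
      · subst hi; simp only [Function.update_self]; omega
      · simp only [Function.update_of_ne hi]; exact hs1 i
    · intro c hc1 hc2
      obtain ⟨j, hj, hjc⟩ := hs2 c hc1 hc2
      have h2 : (j : ℕ) ≠ n + 1 := fun h => hj (Fin.ext (by simpa using h))
      have h3 := j.2
      refine ⟨⟨(j : ℕ) + 1, by omega⟩, ?_, ?_⟩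
      · intro h
        have := congrArg Fin.val h
        simp at this
      · have := vert_rot (Function.update s.1 l (s.1 l - 1)) (s.2 * (finRotate (n + 1))⁻¹) j
          (by omega)
        rw [hrot] at this
        simp only [Function.update_self, Function.update_idem, inv_mul_cancel_right] at this
        rw [← this, ← hjc]
        congr 2
        rw [Nat.sub_add_cancel hpos, Function.update_eq_self]
    · simp only [hrot, Function.update_self]
      omega
  · intro s hs
    have hrot : (s.2 * finRotate (n + 1)) (Fin.last n) = s.2 0 := by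
      simp
    refine Prod.ext ?_ ?_
    · simp only [hrot, Function.update_self, Function.update_idem, Nat.add_sub_cancel,
        Function.update_eq_self]
    · simp
  · intro s hs
    have hs' : s ∈ door (n + 1) N lam (Fin.last (n + 1)) := hs
    unfold door at hs'
    rw [Finset.mem_filter] at hs'
    obtain ⟨hs1, hs2⟩ := hs'
    set l := s.2 (Fin.last n) with hl
    have hpos : 0 < s.1 l := by
      by_contra h
      push Not at h
      obtain ⟨j, hj, hjc⟩ := hs2 ((l : ℕ) + 1) (by omega) (by have := l.2; omega)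
      refine ha _ (vert_le hs1 j) l ?_ hjc
      unfold vert
      have h1 : s.2.symm l = Fin.last n := by rw [hl]; simp
      rw [h1]
      have h2 : (j : ℕ) ≠ n + 1 := fun h => hj (Fin.ext (by simpa using h))
      have h3 := j.2
      simp
      omega
    have hrot : (s.2 * (finRotate (n + 1))⁻¹) 0 = l := by
      have : (finRotate (n + 1))⁻¹ 0 = Fin.last n := by
        rw [Perm.inv_eq_iff_eq]; simp
      rw [Perm.mul_apply, this]
    simp only [hrot]
    refine Prod.ext ?_ ?_
    · simp only
      rw [← hl, Function.update_self, Function.update_idem, Nat.sub_add_cancel hpos,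
        Function.update_eq_self]
    · simp

theorem door_zero_boundary {n N : ℕ} (hN : 1 ≤ N) (lam : (Fin (n + 1) → ℕ) → ℕ)
    (hb : ∀ x : Fin (n + 1) → ℕ, (∀ i, x i ≤ N) → ∀ i : Fin (n + 1), x i = N →
      (i : ℕ) + 1 ≤ lam x) :
    ((door (n + 1) N lam 0).filter fun s => ¬ s.1 (s.2 0) + 1 < N).card =
      (comp n N (fun x => lam (Fin.cons N x) - 1)).card := by
  classical
  have key : ∀ s ∈ door (n + 1) N lam 0, ¬ s.1 (s.2 0) + 1 < N → s.2 0 = 0 ∧ s.1 0 = N - 1 := by
    intro s hs hlt
    unfold door at hs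
    rw [Finset.mem_filter] at hs
    obtain ⟨hs1, hs2⟩ := hs
    have hsN := mem_simp.1 hs1 (s.2 0)
    obtain ⟨j, hj, hjc⟩ := hs2 1 le_rfl (by omega)
    have hj0 : (j : ℕ) ≠ 0 := fun h => hj (Fin.ext h)
    have := hb _ (vert_le hs1 j) (s.2 0) (by
      change s.1 (s.2 0) + (if ((s.2.symm (s.2 0) : Fin (n + 1)) : ℕ) < (j : ℕ) then 1 else 0) = N
      rw [Equiv.symm_apply_apply, if_pos (by rw [Fin.val_zero]; omega)]
      omega)
    rw [hjc] at this
    have h1 : s.2 0 = 0 := Fin.ext (by rw [Fin.val_zero]; omega)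
    refine ⟨h1, ?_⟩
    rw [h1] at hlt hsN
    omega
  symm
  refine Finset.card_nbij'
    (fun s => ((Fin.cons (N - 1) s.1 : Fin (n + 1) → ℕ), Perm.decomposeFin.symm (0, s.2)))
    (fun s => (Fin.tail s.1, (Perm.decomposeFin s.2).2)) ?_ ?_ ?_ ?_
  · intro s hs
    simp only [door, comp, Finset.coe_filter, Finset.mem_filter, Set.mem_ofPred_eq] at hs ⊢
    obtain ⟨hs1, hs2⟩ := hs
    refine ⟨⟨?_, ?_⟩, ?_⟩
    · rw [mem_simp] at hs1 ⊢
      intro i
      refine Fin.cases ?_ ?_ i
      · simp; omega
      · intro i; simpa using hs1 i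
    · intro c hc1 hc2
      obtain ⟨k, hk⟩ := hs2 (c - 1) (by omega)
      refine ⟨k.succ, Fin.succ_ne_zero _, ?_⟩
      have hv := vert_cons hN s.1 s.2 (k : ℕ)
      simp only [Fin.val_succ]
      rw [hv]
      have h1 : 1 ≤ lam (Fin.cons N (vert s.1 s.2 k)) := by
        have := hb (Fin.cons N (vert s.1 s.2 k)) (by
          intro i
          refine Fin.cases ?_ ?_ i
          · simp
          · intro i; simpa using vert_le hs1 k i) 0 (by simp)
        simpa using this
      omega
    · simp
      omega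
  · intro s hs
    have hs' := Finset.mem_filter.1 (Finset.mem_coe.1 hs)
    obtain ⟨hs0, hs3⟩ := hs'
    obtain ⟨hz1, hz2⟩ := key s hs0 hs3
    unfold door at hs0
    rw [Finset.mem_filter] at hs0
    obtain ⟨hs1, hs2⟩ := hs0
    obtain ⟨v, σ⟩ := s
    simp only at *
    obtain ⟨⟨a, σ'⟩, rfl⟩ := Perm.decomposeFin.symm.surjective σ
    have ha0 : a = 0 := by simpa using hz1
    subst ha0
    have hv : v = Fin.cons (N - 1) (Fin.tail v) := by
      conv_lhs => rw [← Fin.cons_self_tail v]
      rw [hz2]
    simp only [comp, Finset.coe_filter, Set.mem_ofPred_eq, Equiv.apply_symm_apply]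
    refine ⟨?_, ?_⟩
    · rw [mem_simp] at hs1 ⊢
      intro i
      exact hs1 i.succ
    · intro c hc
      obtain ⟨j, hj, hjc⟩ := hs2 (c + 1) (by omega) (by omega)
      have hj0 : (j : ℕ) ≠ 0 := fun h => hj (Fin.ext h)
      have hjlt := j.2
      refine ⟨⟨(j : ℕ) - 1, by omega⟩, ?_⟩
      have h1 := vert_cons hN (Fin.tail v) σ' ((j : ℕ) - 1)
      rw [← hv, Nat.sub_add_cancel (by omega)] at h1
      simp only
      rw [← h1, hjc]
      rfl
  · intro s hs
    simp
  · intro s hs
    have hs' := Finset.mem_filter.1 (Finset.mem_coe.1 hs)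
    obtain ⟨hz1, hz2⟩ := key s hs'.1 hs'.2
    obtain ⟨v, σ⟩ := s
    simp only at *
    obtain ⟨⟨a, σ'⟩, rfl⟩ := Perm.decomposeFin.symm.surjective σ
    have ha0 : a = 0 := by simpa using hz1
    subst ha0
    simp only [Equiv.apply_symm_apply, Prod.mk.injEq, and_true]
    conv_rhs => rw [← Fin.cons_self_tail v]
    rw [hz2]

/-- **Cubical Sperner lemma** (Kuhn): the number of completely labelled simplices is odd. -/
theorem sperner (N : ℕ) (hN : 1 ≤ N) : ∀ (n : ℕ) (lam : (Fin n → ℕ) → ℕ),
    (∀ x : Fin n → ℕ, (∀ i, x i ≤ N) → lam x ≤ n) →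
    (∀ x : Fin n → ℕ, (∀ i, x i ≤ N) → ∀ i : Fin n, x i = 0 → lam x ≠ (i : ℕ) + 1) →
    (∀ x : Fin n → ℕ, (∀ i, x i ≤ N) → ∀ i : Fin n, x i = N → (i : ℕ) + 1 ≤ lam x) →
    ((comp n N lam).card : ZMod 2) = 1
  | 0, lam, h0, _, _ => by
    classical
    have : comp 0 N lam = Finset.univ := by
      ext s
      simp only [comp, Finset.mem_filter, Finset.mem_univ, iff_true]
      refine ⟨mem_simp.2 (fun i => i.elim0), ?_⟩
      intro c hc
      refine ⟨0, ?_⟩
      have := h0 (vert s.1 s.2 ((0 : Fin 1) : ℕ)) (fun i => i.elim0)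
      omega
    rw [this]
    simp
  | n + 1, lam, h0, ha, hb => by
    classical
    rw [← sum_door lam h0]
    rw [Fin.sum_univ_succ, Fin.sum_univ_castSucc]
    have hmid : ∑ i : Fin n, ((door (n + 1) N lam (Fin.succ (Fin.castSucc i))).card : ZMod 2)
        = 0 := by
      apply Finset.sum_eq_zero
      intro i _
      apply door_mid
      · simp
      · have := i.2
        simp
        omega
    rw [hmid, zero_add]
    have hsplit := Finset.card_filter_add_card_filter_not (s := door (n + 1) N lam 0)
      (fun s => s.1 (s.2 0) + 1 < N)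
    rw [← hsplit, door_zero_interior lam ha, door_zero_boundary hN lam hb]
    have ih := sperner N hN n (fun x => lam (Fin.cons N x) - 1) ?_ ?_ ?_
    · push_cast
      rw [ih]
      have : Fin.succ (Fin.last n) = Fin.last (n + 1) := rfl
      rw [this]
      have h2 : ∀ a : ZMod 2, a + 1 + a = 1 := by decide
      exact h2 _
    · intro x hx
      have := h0 (Fin.cons N x) (by
        intro i
        refine Fin.cases ?_ ?_ i
        · simp
        · intro i; simpa using hx i)
      omega
    · intro x hx i hi h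
      have hxx : ∀ i, (Fin.cons N x : Fin (n + 1) → ℕ) i ≤ N := by
        intro i
        refine Fin.cases ?_ ?_ i
        · simp
        · intro i; simpa using hx i
      have h1 := ha (Fin.cons N x) hxx i.succ (by simpa using hi)
      have h2 := hb (Fin.cons N x) hxx 0 (by simp)
      apply h1
      simp only [Fin.val_succ]
      simp at h2
      omega
    · intro x hx i hi
      have hxx : ∀ i, (Fin.cons N x : Fin (n + 1) → ℕ) i ≤ N := by
        intro i
        refine Fin.cases ?_ ?_ i
        · simp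
        · intro i; simpa using hx i
      have h1 := hb (Fin.cons N x) hxx i.succ (by simpa using hi)
      simp only [Fin.val_succ] at h1
      omega

end Pool.Agent.Helper93.ETC
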