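import Mathlib

/-!
Effective topological complexity of a space with a group action: definitions.
-/

open unitInterval

namespace Pool.Agent.Helper93.ETC

/-- The sectional category of `p : E → B` is at most `k`: the space `B` is covered by `k + 1` open
sets `U i`, each of which has a continuous `s : U i → E` such that `p ∘ s` is homotopic to the
inclusion `U i → B`. -/
def SecatLe {E B : Type} [TopologicalSpace E] [TopologicalSpace B] (p : C(E, B)) (k : ℕ) : Prop :=
  ∃ U : Fin (k + 1) → Set B, (∀ i, IsOpen (U i)) ∧ (∀ b, ∃ i, b ∈ U i) ∧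
    ∀ i, ∃ s : C(U i, E),
      (p.comp s).Homotopic (⟨Subtype.val, continuous_subtype_val⟩ : C(U i, B))

/-- The space `E_G(X)` of triples `(γ₁, h, γ₂)`, where `γ₁, γ₂ : [0,1] → X` are paths and `h` is in
the (discrete) group `G`, with `h • γ₁ 1 = γ₂ 0`. Path spaces carry the compact-open topology. -/
abbrev EG (G X : Type) [Group G] [TopologicalSpace G] [TopologicalSpace X] [MulAction G X] : Type :=
  {x : C(I, X) × G × C(I, X) // x.2.1 • x.1 1 = x.2.2 0}

/-- The end point map `E_G(X) → X × X`, `(γ₁, h, γ₂) ↦ (γ₁ 0, γ₂ 1)`. -/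
def endpoints (G X : Type) [Group G] [TopologicalSpace G] [TopologicalSpace X] [MulAction G X] :
    C(EG G X, X × X) where
  toFun x := (x.1.1 0, x.1.2.2 1)
  continuous_toFun := by
    fun_prop

end Pool.Agent.Helper93.ETC
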