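import Mathlib

/-!
`PGL(2, ℝ)` acts on the hyperbolic plane by isometries.
-/

open UpperHalfPlane MatrixGroups Matrix

namespace Pool.Agent.Helper93.ETC

theorem gl_dist_smul_smul (g : GL (Fin 2) ℝ) (z w : ℍ) : dist (g • z) (g • w) = dist z w := by
  have hz : denom g z ≠ 0 := denom_ne_zero g z
  have hw : denom g w ≠ 0 := denom_ne_zero g w
  have hdet : g.det.val ≠ 0 := g.det.ne_zero
  have key : Real.cosh (dist (g • z) (g • w)) = Real.cosh (dist z w) := by
    rw [cosh_dist, cosh_dist]
    have h1 : dist ((g • z : ℍ) : ℂ) ((g • w : ℍ) : ℂ)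
        = |g.det.val| * dist (z : ℂ) w / (‖denom g z‖ * ‖denom g w‖) := by
      rw [coe_smul, coe_smul, dist_eq_norm, ← map_sub, norm_σ]
      have : num g z / denom g z - num g w / denom g w
          = (g.det.val : ℂ) * (z - w) / (denom g z * denom g w) := by
        rw [div_sub_div _ _ hz hw]
        congr 1
        simp only [num, denom, Matrix.GeneralLinearGroup.val_det_apply, g.1.det_fin_two]
        push_cast
        ring
      rw [this, norm_div, norm_mul, norm_mul, dist_eq_norm, Complex.norm_real, Real.norm_eq_abs]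
    rw [h1, im_smul_eq_div_normSq, im_smul_eq_div_normSq]
    have h2 : Complex.normSq (denom g z) = ‖denom g z‖ ^ 2 := Complex.normSq_eq_norm_sq _
    have h3 : Complex.normSq (denom g w) = ‖denom g w‖ ^ 2 := Complex.normSq_eq_norm_sq _
    rw [h2, h3]
    have h4 : ‖denom g z‖ ≠ 0 := norm_ne_zero_iff.mpr hz
    have h5 : ‖denom g w‖ ≠ 0 := norm_ne_zero_iff.mpr hw
    have h6 : |g.det.val| ≠ 0 := abs_ne_zero.mpr hdet
    have h7 := z.im_ne_zero
    have h8 := w.im_ne_zero
    field_simp
  exact Real.cosh_strictMonoOn.injOn (Set.mem_Ici.mpr dist_nonneg) (Set.mem_Ici.mpr dist_nonneg) key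

/-- `PGL(2, ℝ)` acts on the hyperbolic plane by isometries. -/
theorem dist_smul_smul (g : PGL(2, ℝ)) (z w : ℍ) : dist (g • z) (g • w) = dist z w := by
  induction g using Matrix.ProjGenLinGroup.induction_on with
  | mk g => rw [pglMk_smul, pglMk_smul, gl_dist_smul_smul]

theorem isometry_smul (g : PGL(2, ℝ)) : Isometry (fun z : ℍ ↦ g • z) :=
  Isometry.of_dist_eq (dist_smul_smul g)

theorem continuous_smul (g : PGL(2, ℝ)) : Continuous (fun z : ℍ ↦ g • z) :=
  (isometry_smul g).continuous

theorem dist_smul_left (g : PGL(2, ℝ)) (z w : ℍ) : dist (g • z) w = dist z (g⁻¹ • w) := by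
  rw [← dist_smul_smul g z, smul_inv_smul]

end Pool.Agent.Helper93.ETC
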