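import Mathlib
import Pool.Agent.Helper93.ETC.Sperner

set_option autoImplicit false

/-! Brouwer fixed point theorem for the cube `[0,1]^n` from the cubical Sperner lemma. -/

namespace Pool.Agent.Helper93.ETC

open Equiv Set

/-- grid point -/
noncomputable def gp (n N : ℕ) (x : Fin n → ℕ) : Fin n → ℝ := fun i => (x i : ℝ) / N

open Classical in
/-- the label used for the map `f` -/
noncomputable def lab (n N : ℕ) (f : (Fin n → ℝ) → (Fin n → ℝ)) (x : Fin n → ℕ) : ℕ :=
  (Finset.univ.filter fun i : Fin n => 0 < x i ∧ f (gp n N x) i ≤ gp n N x i).sup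
    fun i => (i : ℕ) + 1

theorem gp_mem {n N : ℕ} (hN : 1 ≤ N) (x : Fin n → ℕ) (hx : ∀ i, x i ≤ N) :
    gp n N x ∈ Icc (0 : Fin n → ℝ) 1 := by
  have h0 : (0 : ℝ) < N := by exact_mod_cast hN
  constructor
  · intro i
    simp only [gp, Pi.zero_apply]
    positivity
  · intro i
    simp only [gp, Pi.one_apply]
    rw [div_le_one h0]
    exact_mod_cast hx i

theorem lab_spec {n N : ℕ} (f : (Fin n → ℝ) → (Fin n → ℝ)) (x : Fin n → ℕ) (i : Fin n)
    (h : lab n N f x = (i : ℕ) + 1) : 0 < x i ∧ f (gp n N x) i ≤ gp n N x i := by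
  classical
  unfold lab at h
  set S := Finset.univ.filter fun i : Fin n => 0 < x i ∧ f (gp n N x) i ≤ gp n N x i with hS
  have hne : S.Nonempty := by
    by_contra hc
    rw [Finset.not_nonempty_iff_eq_empty] at hc
    rw [hc] at h
    simp at h
  obtain ⟨j, hj, hj2⟩ := Finset.exists_mem_eq_sup S hne (fun i => (i : ℕ) + 1)
  rw [h] at hj2
  have : j = i := Fin.ext (by omega)
  subst this
  exact (Finset.mem_filter.1 hj).2

theorem lab_zero {n N : ℕ} (f : (Fin n → ℝ) → (Fin n → ℝ)) (x : Fin n → ℕ)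
    (h : lab n N f x = 0) (i : Fin n) : ¬ (0 < x i ∧ f (gp n N x) i ≤ gp n N x i) := by
  classical
  intro hi
  unfold lab at h
  have : (i : ℕ) + 1 ≤ (Finset.univ.filter fun i : Fin n =>
      0 < x i ∧ f (gp n N x) i ≤ gp n N x i).sup fun i => (i : ℕ) + 1 :=
    Finset.le_sup (f := fun i : Fin n => (i : ℕ) + 1) (Finset.mem_filter.2 ⟨Finset.mem_univ i, hi⟩)
  omega

theorem exists_simplex {n N : ℕ} (hN : 1 ≤ N) (f : (Fin n → ℝ) → (Fin n → ℝ))
    (hm : MapsTo f (Icc 0 1) (Icc 0 1)) :
    ∃ y ∈ Icc (0 : Fin n → ℝ) 1, (∀ i, y i ≤ f y i) ∧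
      ∀ i, ∃ z ∈ Icc (0 : Fin n → ℝ) 1, (∀ j, |z j - y j| ≤ 1 / N) ∧ f z i ≤ z i := by
  classical
  have h0N : (0 : ℝ) < N := by exact_mod_cast hN
  have hs := sperner N hN n (lab n N f) ?_ ?_ ?_
  · have hne : (comp n N (lab n N f)).Nonempty := by
      by_contra hc
      rw [Finset.not_nonempty_iff_eq_empty] at hc
      rw [hc] at hs
      simp at hs
    obtain ⟨s, hs⟩ := hne
    unfold comp at hs
    rw [Finset.mem_filter] at hs
    obtain ⟨hs1, hs2⟩ := hs
    obtain ⟨k0, hk0⟩ := hs2 0 (Nat.zero_le _)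
    refine ⟨gp n N (vert s.1 s.2 k0), gp_mem hN _ (vert_le hs1 k0), ?_, ?_⟩
    · intro i
      have h1 := lab_zero f _ hk0 i
      by_cases h2 : 0 < vert s.1 s.2 k0 i
      · have h3 : ¬ f (gp n N (vert s.1 s.2 k0)) i ≤ gp n N (vert s.1 s.2 k0) i :=
          fun h => h1 ⟨h2, h⟩
        exact (not_le.1 h3).le
      · have h3 : vert s.1 s.2 k0 i = 0 := by omega
        have h4 : gp n N (vert s.1 s.2 k0) i = 0 := by simp [gp, h3]
        rw [h4]
        exact (hm (gp_mem hN _ (vert_le hs1 k0))).1 i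
    · intro i
      obtain ⟨k, hk⟩ := hs2 ((i : ℕ) + 1) (by have := i.2; omega)
      refine ⟨gp n N (vert s.1 s.2 k), gp_mem hN _ (vert_le hs1 k), ?_,
        (lab_spec f _ i hk).2⟩
      intro j
      simp only [gp, vert]
      rw [← sub_div, abs_div, abs_of_pos h0N]
      apply div_le_div_of_nonneg_right _ h0N.le
      push_cast
      split_ifs <;> simp
  · intro x _
    unfold lab
    apply Finset.sup_le
    intro i _
    exact i.2
  · intro x _ i hi h
    have := (lab_spec f x i h).1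
    omega
  · intro x hx i hi
    unfold lab
    refine Finset.le_sup (f := fun i : Fin n => (i : ℕ) + 1) (Finset.mem_filter.2
      ⟨Finset.mem_univ i, by omega, ?_⟩)
    have h1 : gp n N x i = 1 := by
      simp only [gp, hi]
      exact div_self h0N.ne'
    rw [h1]
    exact (hm (gp_mem hN x hx)).2 i

/-- **Brouwer fixed point theorem** for the cube. -/
theorem brouwer_cube {n : ℕ} (f : (Fin n → ℝ) → (Fin n → ℝ)) (hf : ContinuousOn f (Icc 0 1))
    (hm : MapsTo f (Icc 0 1) (Icc 0 1)) : ∃ x ∈ Icc (0 : Fin n → ℝ) 1, f x = x := by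
  by_contra hno
  push Not at hno
  have hcomp : IsCompact (Icc (0 : Fin n → ℝ) 1) := isCompact_Icc
  have hne : (Icc (0 : Fin n → ℝ) 1).Nonempty := ⟨0, by simp⟩
  have hcont : ContinuousOn (fun x => ‖f x - x‖) (Icc (0 : Fin n → ℝ) 1) :=
    (hf.sub continuousOn_id).norm
  obtain ⟨x0, hx0, hmin⟩ := hcomp.exists_isMinOn hne hcont
  set δ := ‖f x0 - x0‖ with hδ
  have hδpos : 0 < δ := norm_pos_iff.2 (sub_ne_zero.2 (hno x0 hx0))
  have huc := hcomp.uniformContinuousOn_of_continuous hf
  rw [Metric.uniformContinuousOn_iff] at huc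
  obtain ⟨η, hη, huc⟩ := huc (δ / 3) (by positivity)
  obtain ⟨N, hN⟩ := exists_nat_gt (max (1 / η) (3 / δ))
  have hN1 : 1 / η < N := lt_of_le_of_lt (le_max_left _ _) hN
  have hN2 : 3 / δ < N := lt_of_le_of_lt (le_max_right _ _) hN
  have hNpos : (0 : ℝ) < N := lt_trans (by positivity) hN1
  have hN0 : 1 ≤ N := by exact_mod_cast hNpos
  obtain ⟨y, hy, hy1, hy2⟩ := exists_simplex hN0 f hm
  have hlt : ‖f y - y‖ < δ := by
    rw [pi_norm_lt_iff hδpos]
    intro i
    obtain ⟨z, hz, hz1, hz2⟩ := hy2 i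
    have hdist : dist y z < η := by
      rw [dist_pi_lt_iff hη]
      intro j
      rw [Real.dist_eq, abs_sub_comm]
      refine lt_of_le_of_lt (hz1 j) ?_
      rw [div_lt_iff₀ hNpos]
      rw [div_lt_iff₀ hη] at hN1
      linarith [mul_comm (N : ℝ) η]
    have hfd := huc y hy z hz hdist
    have h3 : |f y i - f z i| < δ / 3 := by
      have := (dist_pi_lt_iff (by positivity)).1 hfd i
      rwa [Real.dist_eq] at this
    have h4 := hz1 i
    have h5 := hy1 i
    have h6 : (1 : ℝ) / N < δ / 3 := by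
      rw [div_lt_div_iff₀ hNpos (by norm_num)]
      rw [div_lt_iff₀ hδpos] at hN2
      linarith [mul_comm (N : ℝ) δ]
    rw [Pi.sub_apply, Real.norm_eq_abs, abs_of_nonneg (by linarith)]
    have h7 := abs_lt.1 h3
    have h8 := abs_le.1 h4
    linarith [h7.1, h7.2, h8.1, h8.2]
  exact absurd (hmin hy) (not_le.2 hlt)


/-- **Brouwer fixed point theorem** for a box. -/
theorem brouwer_box {n : ℕ} (a b : Fin n → ℝ) (hab : a ≤ b) (f : (Fin n → ℝ) → (Fin n → ℝ))
    (hf : ContinuousOn f (Icc a b)) (hm : MapsTo f (Icc a b) (Icc a b)) :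
    ∃ x ∈ Icc a b, f x = x := by
  set φ : (Fin n → ℝ) → (Fin n → ℝ) := fun x i => a i + x i * (b i - a i) with hφ
  set r : (Fin n → ℝ) → (Fin n → ℝ) := fun y i => (y i - a i) / (b i - a i) with hr
  have hφm : MapsTo φ (Icc 0 1) (Icc a b) := by
    intro x hx
    constructor
    · intro i
      have h1 := hx.1 i
      have h2 := hab i
      simp only [Pi.zero_apply] at h1
      simp only [hφ]
      nlinarith
    · intro i
      have h1 := hx.1 i
      have h2 := hab i
      have h3 := hx.2 i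
      simp only [Pi.zero_apply] at h1
      simp only [Pi.one_apply] at h3
      simp only [hφ]
      nlinarith
  have hrm : MapsTo r (Icc a b) (Icc 0 1) := by
    intro y hy
    constructor
    · intro i
      have h1 := hy.1 i
      have h2 := hab i
      simp only [hr, Pi.zero_apply]
      exact div_nonneg (by linarith) (by linarith)
    · intro i
      have h1 := hy.2 i
      have h2 := hab i
      simp only [hr, Pi.one_apply]
      exact div_le_one_of_le₀ (by linarith) (by linarith)
  have hφr : ∀ y ∈ Icc a b, φ (r y) = y := by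
    intro y hy
    funext i
    simp only [hφ, hr]
    rcases (hab i).eq_or_lt with h | h
    · have h1 := hy.1 i
      have h2 := hy.2 i
      rw [h]; simp; linarith
    · have : b i - a i ≠ 0 := by linarith
      field_simp
      ring
  have hφc : Continuous φ := by
    rw [continuous_pi_iff]; intro i
    simp only [hφ]
    fun_prop
  have hrc : Continuous r := by
    rw [continuous_pi_iff]; intro i
    simp only [hr]
    fun_prop
  obtain ⟨x, hx, hfx⟩ := brouwer_cube (fun x => r (f (φ x)))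
    (hrc.comp_continuousOn (hf.comp hφc.continuousOn hφm))
    (fun x hx => hrm (hm (hφm hx)))
  refine ⟨φ x, hφm hx, ?_⟩
  exact (hφr (f (φ x)) (hm (hφm hx))).symm.trans (congrArg φ hfx)

end Pool.Agent.Helper93.ETC
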