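import Mathlib
import Pool.Agent.Helper93.ETC.Isom

/-!
Normal forms of fixed point free isometries of the hyperbolic plane.
-/

open UpperHalfPlane MatrixGroups Matrix

namespace Pool.Agent.Helper93.ETC

/-- the diagonal matrix with entries `a, 1` -/
noncomputable def dg (a : ℝˣ) : GL (Fin 2) ℝ :=
  Matrix.GeneralLinearGroup.mkOfDetNeZero !![(a : ℝ), 0; 0, 1] (by simp)

/-- the class of the diagonal matrix with entries `a, 1` -/
noncomputable def Dg (a : ℝˣ) : PGL(2, ℝ) := Matrix.ProjGenLinGroup.mk (dg a)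

theorem dg_00 (a : ℝˣ) : dg a 0 0 = a := rfl
theorem dg_01 (a : ℝˣ) : dg a 0 1 = 0 := rfl
theorem dg_10 (a : ℝˣ) : dg a 1 0 = 0 := rfl
theorem dg_11 (a : ℝˣ) : dg a 1 1 = 1 := rfl

theorem dg_det (a : ℝˣ) : (dg a).det.val = a := by
  rw [Matrix.GeneralLinearGroup.val_det_apply, Matrix.det_fin_two, dg_00, dg_01, dg_10, dg_11]
  simp

theorem Dg_mul (a b : ℝˣ) : Dg a * Dg b = Dg (a * b) := by
  unfold Dg
  rw [← map_mul]
  congr 1
  ext i j
  fin_cases i <;> fin_cases j <;> simp [dg, Matrix.mul_apply]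

theorem Dg_comm (a b : ℝˣ) : Dg a * Dg b = Dg b * Dg a := by
  rw [Dg_mul, Dg_mul, mul_comm]

theorem coe_Dg_smul (a : ℝˣ) (z : ℍ) :
    ((Dg a • z : ℍ) : ℂ) = ⟨a * z.re, |(a : ℝ)| * z.im⟩ := by
  unfold Dg
  rw [pglMk_smul, coe_smul]
  have h1 : num (dg a) z = a * z := by simp [num, dg_00, dg_01]
  have h2 : denom (dg a) z = 1 := by simp [denom, dg_10, dg_11]
  rw [h1, h2, div_one]
  rcases lt_or_gt_of_ne a.ne_zero with h | h
  · have : ¬ (0 : ℝ) < (dg a).det.val := by rw [dg_det]; exact not_lt.mpr h.le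
    simp only [σ, this, if_false, Complex.conjCAE_apply]
    apply Complex.ext
    · simp
    · simp [abs_of_neg h]
  · have : (0 : ℝ) < (dg a).det.val := by rw [dg_det]; exact h
    simp only [σ, this, if_true]
    apply Complex.ext
    · simp
    · simp [abs_of_pos h]

theorem Dg_smul_re (a : ℝˣ) (z : ℍ) : (Dg a • z : ℍ).re = a * z.re := by
  rw [← coe_re, coe_Dg_smul]

theorem Dg_smul_im (a : ℝˣ) (z : ℍ) : (Dg a • z : ℍ).im = |(a : ℝ)| * z.im := by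
  rw [← coe_im, coe_Dg_smul]

/-- displacement of the diagonal matrix at a point compared with the one at the centre -/
theorem cosh_Dg (a : ℝˣ) (w : ℍ) :
    (Real.cosh (dist I (Dg a • I)) - 1) * ((w.re ^ 2 + w.im ^ 2) / w.im ^ 2) ≤
      Real.cosh (dist w (Dg a • w)) - 1 := by
  have ha : (0 : ℝ) < |(a : ℝ)| := abs_pos.mpr a.ne_zero
  have hw : 0 < w.im := w.im_pos
  rw [cosh_dist', cosh_dist', Dg_smul_re, Dg_smul_im, Dg_smul_re, Dg_smul_im, I_re, I_im]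
  have e1 : ((0 - (a : ℝ) * 0) ^ 2 + 1 ^ 2 + (|(a : ℝ)| * 1) ^ 2) / (2 * 1 * (|(a : ℝ)| * 1)) - 1
      = (1 - |(a : ℝ)|) ^ 2 / (2 * |(a : ℝ)|) := by
    field_simp; ring
  have e2 : ((w.re - (a : ℝ) * w.re) ^ 2 + w.im ^ 2 + (|(a : ℝ)| * w.im) ^ 2) /
      (2 * w.im * (|(a : ℝ)| * w.im)) - 1
      = ((1 - (a : ℝ)) ^ 2 * w.re ^ 2 + (1 - |(a : ℝ)|) ^ 2 * w.im ^ 2) /
        (2 * |(a : ℝ)| * w.im ^ 2) := by
    field_simp; ring
  rw [e1, e2, div_mul_div_comm]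
  apply div_le_div_of_nonneg_right _ (by positivity)
  have h3 : (1 - |(a : ℝ)|) ^ 2 ≤ (1 - (a : ℝ)) ^ 2 := by
    have h4 : (a : ℝ) ≤ |(a : ℝ)| := le_abs_self _
    have h5 : |(a : ℝ)| ^ 2 = (a : ℝ) ^ 2 := sq_abs _
    nlinarith
  nlinarith [sq_nonneg w.re]

/-- the point of the imaginary axis with height `y` -/
noncomputable def ax (y : ℝ) (hy : 0 < y) : ℍ := ⟨⟨0, y⟩, hy⟩

theorem norm_coe_pos (w : ℍ) : 0 < ‖(w : ℂ)‖ := norm_pos_iff.mpr (ne_zero w)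

theorem cosh_dist_ax (w : ℍ) :
    Real.cosh (dist w (ax ‖(w : ℂ)‖ (norm_coe_pos w))) = ‖(w : ℂ)‖ / w.im := by
  have h0 := norm_coe_pos w
  have h1 : ‖(w : ℂ)‖ ^ 2 = w.re ^ 2 + w.im ^ 2 := by
    rw [← Complex.normSq_eq_norm_sq, Complex.normSq_apply, coe_re, coe_im]; ring
  have hw : 0 < w.im := w.im_pos
  rw [cosh_dist']
  have e1 : (ax ‖(w : ℂ)‖ (norm_coe_pos w)).re = 0 := rfl
  have e2 : (ax ‖(w : ℂ)‖ (norm_coe_pos w)).im = ‖(w : ℂ)‖ := rfl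
  rw [e1, e2, sub_zero, ← h1]
  field_simp
  ring

end Pool.Agent.Helper93.ETC
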