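import Mathlib
import Pool.Agent.Helper93.ETC.Normal

/-!
Normal forms of fixed point free isometries of the hyperbolic plane, second part.
-/

open UpperHalfPlane MatrixGroups Matrix

namespace Pool.Agent.Helper93.ETC

theorem disp_pos {g : GL (Fin 2) ℝ} (hg : 0 < g.det.val) (z : ℍ) :
    Real.cosh (dist z (g • z)) - 1
      = Complex.normSq ((z : ℂ) * denom g z - num g z) / (2 * g.det.val * z.im ^ 2) := by
  have hz : denom g z ≠ 0 := denom_ne_zero g z
  have hn : 0 < Complex.normSq (denom g z) := Complex.normSq_pos.mpr hz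
  have hzi : z.im ≠ 0 := z.im_ne_zero
  rw [cosh_dist, im_smul_eq_div_normSq, coe_smul_of_det_pos hg, abs_of_pos hg]
  have e1 : dist (z : ℂ) (num g z / denom g z) ^ 2
      = Complex.normSq ((z : ℂ) * denom g z - num g z) / Complex.normSq (denom g z) := by
    rw [dist_eq_norm, ← Complex.normSq_eq_norm_sq, ← Complex.normSq_div]
    congr 1
    field_simp
  rw [e1]
  field_simp
  ring

theorem disp_neg {g : GL (Fin 2) ℝ} (hg : g.det.val < 0) (z : ℍ) :
    Real.cosh (dist z (g • z)) - 1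
      = Complex.normSq ((starRingEnd ℂ) (z : ℂ) * denom g z - num g z) /
        (2 * |g.det.val| * z.im ^ 2) := by
  have hz : denom g z ≠ 0 := denom_ne_zero g z
  have hn : 0 < Complex.normSq (denom g z) := Complex.normSq_pos.mpr hz
  have hzi : z.im ≠ 0 := z.im_ne_zero
  have hd : |g.det.val| ≠ 0 := abs_ne_zero.mpr hg.ne
  rw [cosh_dist, im_smul_eq_div_normSq, coe_smul]
  have hσ : σ g (num g z / denom g z) = (starRingEnd ℂ) (num g z / denom g z) := by
    simp only [σ, not_lt.mpr hg.le, if_false, Complex.conjCAE_apply]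
  have e1 : dist (z : ℂ) (σ g (num g z / denom g z)) ^ 2
      = Complex.normSq ((starRingEnd ℂ) (z : ℂ) * denom g z - num g z) /
        Complex.normSq (denom g z) := by
    rw [hσ, dist_eq_norm, ← Complex.normSq_eq_norm_sq, ← Complex.normSq_div,
      ← Complex.normSq_conj ((z : ℂ) - _)]
    congr 1
    rw [map_sub, Complex.conj_conj]
    field_simp
  rw [e1]
  field_simp
  ring

theorem coe_ax (y : ℝ) (hy : 0 < y) : ((ax y hy : ℍ) : ℂ) = ⟨0, y⟩ := rfl

theorem disp_ax (g : GL (Fin 2) ℝ) : ∃ b c k D : ℝ, 0 < D ∧ ∀ (y : ℝ) (hy : 0 < y),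
    Real.cosh (dist (ax y hy) (g • ax y hy)) - 1 = (c ^ 2 * y ^ 2 + b ^ 2 / y ^ 2 + k) / D := by
  rcases lt_or_gt_of_ne g.det.ne_zero with h | h
  · refine ⟨g 0 1, g 1 0, -2 * g 0 1 * g 1 0 + (g 0 0 + g 1 1) ^ 2, 2 * |g.det.val|,
      by have := abs_pos.mpr h.ne; linarith, fun y hy ↦ ?_⟩
    have hd : |g.det.val| ≠ 0 := abs_ne_zero.mpr h.ne
    rw [disp_neg h, coe_ax]
    have e : (ax y hy).im = y := rfl
    rw [e]
    have e2 : Complex.normSq ((starRingEnd ℂ) (⟨0, y⟩ : ℂ) * denom g ⟨0, y⟩ - num g ⟨0, y⟩)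
        = (g 1 0 * y ^ 2 - g 0 1) ^ 2 + (g 0 0 + g 1 1) ^ 2 * y ^ 2 := by
      simp [Complex.normSq_apply, denom, num]
      ring
    rw [e2]
    field_simp
    ring
  · refine ⟨g 0 1, g 1 0, 2 * g 0 1 * g 1 0 + (g 1 1 - g 0 0) ^ 2, 2 * g.det.val,
      by linarith, fun y hy ↦ ?_⟩
    rw [disp_pos h, coe_ax]
    have e : (ax y hy).im = y := rfl
    rw [e]
    have e2 : Complex.normSq ((⟨0, y⟩ : ℂ) * denom g ⟨0, y⟩ - num g ⟨0, y⟩)
        = (g 1 0 * y ^ 2 + g 0 1) ^ 2 + (g 1 1 - g 0 0) ^ 2 * y ^ 2 := by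
      simp [Complex.normSq_apply, denom, num]
      ring
    rw [e2]
    have : g.det.val ≠ 0 := h.ne'
    field_simp
    ring

theorem quasi {c b y0 y y1 : ℝ} (h0 : 0 < y0) (h1 : y0 ≤ y) (h2 : y ≤ y1) :
    c ^ 2 * y ^ 2 + b ^ 2 / y ^ 2 ≤
      max (c ^ 2 * y0 ^ 2 + b ^ 2 / y0 ^ 2) (c ^ 2 * y1 ^ 2 + b ^ 2 / y1 ^ 2) := by
  by_contra hcon
  push Not at hcon
  rw [max_lt_iff] at hcon
  obtain ⟨ha, hb⟩ := hcon
  have hy : 0 < y := by linarith
  have hy1 : 0 < y1 := by linarith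
  have ea : (c ^ 2 * y ^ 2 + b ^ 2 / y ^ 2) - (c ^ 2 * y0 ^ 2 + b ^ 2 / y0 ^ 2)
      = (y ^ 2 - y0 ^ 2) * (c ^ 2 - b ^ 2 / (y ^ 2 * y0 ^ 2)) := by
    field_simp; ring
  have eb : (c ^ 2 * y ^ 2 + b ^ 2 / y ^ 2) - (c ^ 2 * y1 ^ 2 + b ^ 2 / y1 ^ 2)
      = - ((y1 ^ 2 - y ^ 2) * (c ^ 2 - b ^ 2 / (y ^ 2 * y1 ^ 2))) := by
    field_simp; ring
  have fa : 0 < (y ^ 2 - y0 ^ 2) * (c ^ 2 - b ^ 2 / (y ^ 2 * y0 ^ 2)) := by rw [← ea]; linarith
  have fb : (y1 ^ 2 - y ^ 2) * (c ^ 2 - b ^ 2 / (y ^ 2 * y1 ^ 2)) < 0 := by linarith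
  have ga : 0 ≤ y ^ 2 - y0 ^ 2 := by nlinarith
  have gb : 0 ≤ y1 ^ 2 - y ^ 2 := by nlinarith
  have ka : 0 < c ^ 2 - b ^ 2 / (y ^ 2 * y0 ^ 2) := by
    by_contra hn
    push Not at hn
    have := mul_nonpos_of_nonneg_of_nonpos ga hn
    linarith
  have kb : c ^ 2 - b ^ 2 / (y ^ 2 * y1 ^ 2) < 0 := by
    by_contra hn
    push Not at hn
    have := mul_nonneg gb hn
    linarith
  have kc : b ^ 2 / (y ^ 2 * y1 ^ 2) ≤ b ^ 2 / (y ^ 2 * y0 ^ 2) := by
    apply div_le_div_of_nonneg_left (sq_nonneg _) (by positivity)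
    apply mul_le_mul_of_nonneg_left _ (by positivity)
    nlinarith
  linarith

theorem disp_quasi_gl (g : GL (Fin 2) ℝ) {y0 y y1 R : ℝ} (h0 : 0 < y0) (h1 : y0 ≤ y) (h2 : y ≤ y1)
    (hR0 : dist (ax y0 h0) (g • ax y0 h0) ≤ R)
    (hR1 : dist (ax y1 (h0.trans_le (h1.trans h2))) (g • ax y1 (h0.trans_le (h1.trans h2))) ≤ R) :
    dist (ax y (h0.trans_le h1)) (g • ax y (h0.trans_le h1)) ≤ R := by
  obtain ⟨b, c, k, D, hD, h⟩ := disp_ax g
  have hR : 0 ≤ R := dist_nonneg.trans hR0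
  have c0 : Real.cosh (dist (ax y0 h0) (g • ax y0 h0)) ≤ Real.cosh R :=
    Real.cosh_le_cosh.mpr (by rwa [abs_of_nonneg dist_nonneg, abs_of_nonneg hR])
  have c1 : Real.cosh (dist (ax y1 (h0.trans_le (h1.trans h2)))
      (g • ax y1 (h0.trans_le (h1.trans h2)))) ≤ Real.cosh R :=
    Real.cosh_le_cosh.mpr (by rwa [abs_of_nonneg dist_nonneg, abs_of_nonneg hR])
  have key : Real.cosh (dist (ax y (h0.trans_le h1)) (g • ax y (h0.trans_le h1)))
      ≤ Real.cosh R := by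
    have e0 := h y0 h0
    have e1 := h y1 (h0.trans_le (h1.trans h2))
    have e := h y (h0.trans_le h1)
    have hq := quasi (c := c) (b := b) h0 h1 h2
    have m : (c ^ 2 * y ^ 2 + b ^ 2 / y ^ 2 + k) / D ≤ Real.cosh R - 1 := by
      rw [div_le_iff₀ hD]
      rw [eq_div_iff hD.ne'] at e0 e1
      rcases le_max_iff.mp hq with hq | hq
      · nlinarith
      · nlinarith
    linarith
  have := Real.cosh_le_cosh.mp key
  rwa [abs_of_nonneg dist_nonneg, abs_of_nonneg hR] at this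

theorem disp_quasi (g : PGL(2, ℝ)) {y0 y y1 R : ℝ} (h0 : 0 < y0) (h1 : y0 ≤ y) (h2 : y ≤ y1)
    (hR0 : dist (ax y0 h0) (g • ax y0 h0) ≤ R)
    (hR1 : dist (ax y1 (h0.trans_le (h1.trans h2))) (g • ax y1 (h0.trans_le (h1.trans h2))) ≤ R) :
    dist (ax y (h0.trans_le h1)) (g • ax y (h0.trans_le h1)) ≤ R := by
  induction g using Matrix.ProjGenLinGroup.induction_on with
  | mk g => exact disp_quasi_gl g h0 h1 h2 hR0 hR1

theorem exists_conj_gl {g : GL (Fin 2) ℝ} (h : 0 < g.val.discr) :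
    ∃ (r : GL (Fin 2) ℝ) (a u : ℝˣ), r * g = dg a * r * .scalar (Fin 2) u := by
  have hdisc : g.val.discr = (g 0 0 - g 1 1) ^ 2 + 4 * g 0 1 * g 1 0 := by
    rw [Matrix.discr_fin_two, Matrix.trace_fin_two, Matrix.det_fin_two]; ring
  have hdet : g 0 0 * g 1 1 - g 0 1 * g 1 0 ≠ 0 := by
    have := g.det_ne_zero
    rwa [Matrix.det_fin_two] at this
  by_cases hc : g 1 0 = 0
  · have hne : g 0 0 - g 1 1 ≠ 0 := by
      intro h0
      rw [hdisc, hc, h0] at h
      simp at h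
    have ha : g 0 0 ≠ 0 := by
      intro h0; apply hdet; rw [h0, hc]; ring
    have hd : g 1 1 ≠ 0 := by
      intro h0; apply hdet; rw [h0, hc]; ring
    refine ⟨.mkOfDetNeZero !![g 0 0 - g 1 1, g 0 1; 0, 1] (by simpa [Matrix.det_fin_two] using hne),
      Units.mk0 (g 0 0 / g 1 1) (div_ne_zero ha hd), Units.mk0 (g 1 1) hd, ?_⟩
    ext i j
    fin_cases i <;> fin_cases j <;>
      simp [dg, Matrix.mul_apply, Fin.sum_univ_two, hc] <;> field_simp <;> ring
  · set s := √(g.val.discr) with hs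
    have hs0 : 0 < s := Real.sqrt_pos.mpr h
    have hs2 : s ^ 2 = (g 0 0 - g 1 1) ^ 2 + 4 * g 0 1 * g 1 0 := by
      rw [hs, Real.sq_sqrt h.le, hdisc]
    have hprod : ((g 0 0 + g 1 1 + s) / 2) * ((g 0 0 + g 1 1 - s) / 2) ≠ 0 := by
      have : ((g 0 0 + g 1 1 + s) / 2) * ((g 0 0 + g 1 1 - s) / 2)
          = g 0 0 * g 1 1 - g 0 1 * g 1 0 := by
        linear_combination (-1 / 4) * hs2
      rw [this]; exact hdet
    have hl1 : (g 0 0 + g 1 1 + s) / 2 ≠ 0 := left_ne_zero_of_mul hprod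
    have hl2 : (g 0 0 + g 1 1 - s) / 2 ≠ 0 := right_ne_zero_of_mul hprod
    refine ⟨.mkOfDetNeZero !![g 1 0, (g 0 0 + g 1 1 + s) / 2 - g 0 0;
        g 1 0, (g 0 0 + g 1 1 - s) / 2 - g 0 0] ?_,
      Units.mk0 _ (div_ne_zero hl1 hl2), Units.mk0 _ hl2, ?_⟩
    · rw [Matrix.det_fin_two]
      simp only [Matrix.of_apply, Matrix.cons_val', Matrix.cons_val_zero, Matrix.cons_val_one,
        Matrix.cons_val_fin_one]
      have : g 1 0 * ((g 0 0 + g 1 1 - s) / 2 - g 0 0) - ((g 0 0 + g 1 1 + s) / 2 - g 0 0) * g 1 0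
          = - (g 1 0 * s) := by ring
      rw [this]
      exact neg_ne_zero.mpr (mul_ne_zero hc hs0.ne')
    · have hl2' : g 0 0 + g 1 1 - s ≠ 0 := fun h0 ↦ hl2 (by rw [h0]; simp)
      ext i j
      fin_cases i <;> fin_cases j <;>
        simp [dg, Matrix.mul_apply, Fin.sum_univ_two] <;> field_simp <;> grind

theorem exists_conj {g : GL (Fin 2) ℝ} (h : 0 < g.val.discr) :
    ∃ (r : PGL(2, ℝ)) (a : ℝˣ), Matrix.ProjGenLinGroup.mk g = r⁻¹ * Dg a * r := by
  obtain ⟨r, a, u, h⟩ := exists_conj_gl h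
  refine ⟨Matrix.ProjGenLinGroup.mk r, a, ?_⟩
  have := congrArg Matrix.ProjGenLinGroup.mk h
  rw [map_mul, map_mul, map_mul, Matrix.ProjGenLinGroup.mk_scalar, mul_one] at this
  rw [mul_assoc, ← Dg.eq_1, ← this] at *
  group

/-- a non-trivial element with zero discriminant moves some points arbitrarily little -/
theorem parabolic_small {g : GL (Fin 2) ℝ} (h : g.val.discr = 0) {ε : ℝ} (hε : 0 < ε) :
    ∃ z : ℍ, dist z (g • z) < ε := by
  have hdisc : (g 0 0 - g 1 1) ^ 2 + 4 * g 0 1 * g 1 0 = 0 := by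
    rw [← h, Matrix.discr_fin_two, Matrix.trace_fin_two, Matrix.det_fin_two]; ring
  have hdet0 : g.det.val = g 0 0 * g 1 1 - g 0 1 * g 1 0 := by
    rw [Matrix.GeneralLinearGroup.val_det_apply, Matrix.det_fin_two]
  have hdet : 0 < g.det.val := by
    have h1 : g.det.val ≠ 0 := g.det.ne_zero
    have h2 : 4 * g.det.val = (g 0 0 + g 1 1) ^ 2 := by rw [hdet0]; linarith
    have h3 : 0 ≤ g.det.val := by nlinarith [sq_nonneg (g 0 0 + g 1 1)]
    exact lt_of_le_of_ne h3 h1.symm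
  have hcosh : 0 < Real.cosh ε - 1 := by
    have := Real.one_lt_cosh.mpr hε.ne'
    linarith
  have main : ∃ z : ℍ, Real.cosh (dist z (g • z)) - 1 < Real.cosh ε - 1 := by
    by_cases hc : g 1 0 = 0
    · have had : g 0 0 = g 1 1 := by
        rw [hc] at hdisc
        have : (g 0 0 - g 1 1) ^ 2 = 0 := by linarith
        have := pow_eq_zero_iff (two_ne_zero) |>.mp this
        linarith
      -- go high
      obtain ⟨y, hy0, hy⟩ : ∃ y : ℝ, 0 < y ∧
          (g 0 1) ^ 2 < (Real.cosh ε - 1) * (2 * g.det.val * y ^ 2) := by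
        refine ⟨1 + (g 0 1) ^ 2 / ((Real.cosh ε - 1) * (2 * g.det.val)), by positivity, ?_⟩
        have hp : 0 < (Real.cosh ε - 1) * (2 * g.det.val) := by positivity
        set t := (g 0 1) ^ 2 / ((Real.cosh ε - 1) * (2 * g.det.val)) with ht
        have ht0 : 0 ≤ t := by positivity
        have e : (g 0 1) ^ 2 = t * ((Real.cosh ε - 1) * (2 * g.det.val)) := by
          rw [ht]; field_simp
        rw [e]
        nlinarith
      refine ⟨ax y hy0, ?_⟩
      rw [disp_pos hdet, coe_ax]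
      have e : (ax y hy0).im = y := rfl
      rw [e, div_lt_iff₀ (by positivity)]
      have e2 : Complex.normSq ((⟨0, y⟩ : ℂ) * denom g ⟨0, y⟩ - num g ⟨0, y⟩) = (g 0 1) ^ 2 := by
        simp [Complex.normSq_apply, denom, num, hc, had]
        ring
      rw [e2]
      exact hy
    · obtain ⟨y, hy0, hy⟩ : ∃ y : ℝ, 0 < y ∧
          (g 1 0) ^ 2 * y ^ 2 < (Real.cosh ε - 1) * (2 * g.det.val) := by
        have hp : 0 < (Real.cosh ε - 1) * (2 * g.det.val) := by positivity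
        set s := (Real.cosh ε - 1) * (2 * g.det.val) with hs
        refine ⟨√(s / (2 * (g 1 0) ^ 2)), by positivity, ?_⟩
        rw [Real.sq_sqrt (by positivity)]
        field_simp
        linarith
      refine ⟨⟨⟨(g 0 0 - g 1 1) / (2 * g 1 0), y⟩, hy0⟩, ?_⟩
      rw [disp_pos hdet]
      have e : (⟨⟨(g 0 0 - g 1 1) / (2 * g 1 0), y⟩, hy0⟩ : ℍ).im = y := rfl
      rw [e, div_lt_iff₀ (by positivity)]
      have e2 : Complex.normSq ((((⟨⟨(g 0 0 - g 1 1) / (2 * g 1 0), y⟩, hy0⟩ : ℍ)) : ℂ) *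
            denom g (((⟨⟨(g 0 0 - g 1 1) / (2 * g 1 0), y⟩, hy0⟩ : ℍ)) : ℂ)
          - num g (((⟨⟨(g 0 0 - g 1 1) / (2 * g 1 0), y⟩, hy0⟩ : ℍ)) : ℂ))
          = (g 1 0) ^ 2 * y ^ 4 := by
        have hb : g 0 1 = - (g 0 0 - g 1 1) ^ 2 / (4 * g 1 0) := by
          field_simp
          linarith
        simp [Complex.normSq_apply, denom, num]
        rw [hb]
        field_simp
        ring
      rw [e2]
      have : 0 < y ^ 2 := by positivity
      nlinarith
  obtain ⟨z, hz⟩ := main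
  refine ⟨z, ?_⟩
  have : Real.cosh (dist z (g • z)) < Real.cosh ε := by linarith
  have := Real.cosh_lt_cosh.mp this
  rwa [abs_of_nonneg dist_nonneg, abs_of_pos hε] at this

/-- normal form of an isometry with displacement bounded below -/
theorem normal_form {γ : PGL(2, ℝ)} {ε : ℝ} (hε : 0 < ε) (h : ∀ z : ℍ, ε ≤ dist z (γ • z)) :
    ∃ (r : PGL(2, ℝ)) (a : ℝˣ), γ = r⁻¹ * Dg a * r := by
  induction γ using Matrix.ProjGenLinGroup.induction_on with
  | mk g =>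
    apply exists_conj
    rcases lt_trichotomy g.val.discr 0 with hd | hd | hd
    · exfalso
      have hdet : 0 < g.val.det := by
        rw [Matrix.discr_fin_two] at hd
        nlinarith [sq_nonneg g.val.trace]
      have := (gl_smul_eq_self_iff_eq_fixedPt (g := g) (z := fixedPt g hd) hdet hd).mpr rfl
      have h2 := h (fixedPt g hd)
      rw [pglMk_smul, this, dist_self] at h2
      linarith
    · exfalso
      obtain ⟨z, hz⟩ := parabolic_small hd hε
      have h2 := h z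
      rw [pglMk_smul] at h2
      linarith
    · exact hd

end Pool.Agent.Helper93.ETC
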