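import Mathlib
import Pool.Agent.Helper93.ETC.Normal2

/-!
Cocompact fixed point free groups of isometries of the hyperbolic plane: centralizers and
displacement bounds.
-/

open UpperHalfPlane MatrixGroups Matrix

namespace Pool.Agent.Helper93.ETC

section finiteness

variable {Γ : Subgroup PGL(2, ℝ)}

theorem fin_moving [ProperlyDiscontinuousSMul Γ ℍ] (R : ℝ) :
    {γ : Γ | dist I (γ • I : ℍ) ≤ R}.Finite := by
  have := ProperlyDiscontinuousSMul.finite_disjoint_inter_image (Γ := Γ) (T := ℍ)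
    (isCompact_singleton (x := I)) (isCompact_closedBall (α := ℍ) I R)
  refine this.subset fun γ hγ ↦ ?_
  simp only [Set.mem_ofPred_eq] at hγ ⊢
  exact ⟨γ • I, ⟨I, rfl, rfl⟩, by rwa [Metric.mem_closedBall, dist_comm]⟩

theorem exists_disp (hfree : ∀ γ ∈ Γ, ∀ z : ℍ, γ • z = z → γ = 1)
    (hfin : ∀ R : ℝ, {γ : Γ | dist I (γ • I : ℍ) ≤ R}.Finite)
    {D : ℝ} (hco : ∀ z : ℍ, ∃ γ : Γ, dist I (γ • z : ℍ) ≤ D) :
    ∃ ε : ℝ, 0 < ε ∧ ∀ γ : Γ, γ ≠ 1 → ∀ z : ℍ, ε ≤ dist z (γ • z) := by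
  classical
  have hF := hfin (2 * D + 1)
  set F := hF.toFinset with hFdef
  have hpos : ∀ γ : Γ, γ ≠ 1 → ∃ m : ℝ, 0 < m ∧ ∀ z ∈ Metric.closedBall (I : ℍ) D,
      m ≤ dist z (γ • z) := by
    intro γ hγ
    rcases (Metric.closedBall (I : ℍ) D).eq_empty_or_nonempty with he | hne
    · exact ⟨1, one_pos, by rw [he]; simp⟩
    · obtain ⟨z, hz, hmin⟩ := (isCompact_closedBall (I : ℍ) D).exists_isMinOn hne
        (f := fun z : ℍ ↦ dist z (γ • z))
        ((continuous_id.dist (continuous_smul (γ : PGL(2, ℝ)))).continuousOn)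
      refine ⟨dist z (γ • z), ?_, fun w hw ↦ hmin hw⟩
      rw [dist_pos]
      intro h
      apply hγ
      exact Subtype.ext (hfree γ γ.2 z h.symm)
  choose! m hm0 hm using hpos
  obtain ⟨ε, hε0, hε1, hε⟩ : ∃ ε : ℝ, 0 < ε ∧ ε ≤ 1 ∧ ∀ γ ∈ F, γ ≠ 1 → ε ≤ m γ := by
    have : ∀ S : Finset Γ, ∃ ε : ℝ, 0 < ε ∧ ε ≤ 1 ∧ ∀ γ ∈ S, γ ≠ 1 → ε ≤ m γ := by
      intro S
      induction S using Finset.induction_on with
      | empty => exact ⟨1, one_pos, le_rfl, by simp⟩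
      | insert a S _ ih =>
        obtain ⟨e, he0, he1, he⟩ := ih
        by_cases ha : a = 1
        · refine ⟨e, he0, he1, fun γ hγ hne ↦ ?_⟩
          rcases Finset.mem_insert.mp hγ with h | h
          · exact absurd (h.trans ha) hne
          · exact he γ h hne
        · refine ⟨min e (m a), lt_min he0 (hm0 a ha), (min_le_left _ _).trans he1,
            fun γ hγ hne ↦ ?_⟩
          rcases Finset.mem_insert.mp hγ with h | h
          · rw [h]; exact min_le_right _ _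
          · exact (min_le_left _ _).trans (he γ h hne)
    exact this F
  refine ⟨ε, hε0, fun γ hγ z ↦ ?_⟩
  obtain ⟨δ, hδ⟩ := hco z
  set w : ℍ := δ • z with hw
  have e1 : dist z (γ • z) = dist w ((δ * γ * δ⁻¹) • w) := by
    have : (δ * γ * δ⁻¹) • w = δ • (γ • z) := by
      rw [hw, smul_smul, smul_smul]; congr 1; group
    rw [this, hw]
    exact (dist_smul_smul (δ : PGL(2, ℝ)) z (γ • z)).symm
  have hne : δ * γ * δ⁻¹ ≠ 1 := by
    intro h
    apply hγ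
    have : γ = δ⁻¹ * (δ * γ * δ⁻¹) * δ := by group
    rw [this, h]; group
  rw [e1]
  by_contra hcon
  push Not at hcon
  have hF' : δ * γ * δ⁻¹ ∈ F := by
    rw [hFdef, Set.Finite.mem_toFinset, Set.mem_ofPred_eq]
    have t1 : dist I ((δ * γ * δ⁻¹) • I : ℍ) ≤ dist I w + dist w ((δ * γ * δ⁻¹) • w)
        + dist ((δ * γ * δ⁻¹) • w) ((δ * γ * δ⁻¹) • I : ℍ) := dist_triangle4 _ _ _ _
    have t2 : dist ((δ * γ * δ⁻¹) • w) ((δ * γ * δ⁻¹) • I : ℍ) = dist w I :=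
      dist_smul_smul ((δ * γ * δ⁻¹ : Γ) : PGL(2, ℝ)) w I
    rw [t2, dist_comm w I] at t1
    linarith
  have h3 := hε _ hF' hne
  have h4 := hm _ hne w (by rwa [Metric.mem_closedBall, dist_comm])
  linarith

end finiteness

section centralizer

variable {Γ : Subgroup PGL(2, ℝ)} {ε : ℝ}

theorem Dg_smul_I (a : ℝˣ) (ha : |(a : ℝ)| = 1) : (Dg a • I : ℍ) = I := by
  apply UpperHalfPlane.ext_re_im
  · rw [Dg_smul_re, I_re, mul_zero]
  · rw [Dg_smul_im, ha, I_im, mul_one]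

theorem comm_Dg {a : ℝˣ} (ha : |(a : ℝ)| ≠ 1) {d : PGL(2, ℝ)} (h : d * Dg a = Dg a * d) :
    ∃ b : ℝˣ, d = Dg b := by
  induction d using Matrix.ProjGenLinGroup.induction_on with
  | mk g =>
    unfold Dg at h
    rw [← map_mul, ← map_mul, Matrix.ProjGenLinGroup.mk_eq_mk_iff] at h
    obtain ⟨u, hu⟩ := h
    have e00 := congrArg (fun m : GL (Fin 2) ℝ ↦ m 0 0) hu
    have e01 := congrArg (fun m : GL (Fin 2) ℝ ↦ m 0 1) hu
    have e10 := congrArg (fun m : GL (Fin 2) ℝ ↦ m 1 0) hu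
    have e11 := congrArg (fun m : GL (Fin 2) ℝ ↦ m 1 1) hu
    simp [dg, Matrix.mul_apply, Fin.sum_univ_two] at e00 e01 e10 e11
    have hdet : g 0 0 * g 1 1 - g 0 1 * g 1 0 ≠ 0 := by
      have := g.det_ne_zero
      rwa [Matrix.det_fin_two] at this
    have ha0 : (a : ℝ) ≠ 0 := a.ne_zero
    by_cases hu1 : (u : ℝ) = 1
    · have ha1 : (a : ℝ) ≠ 1 := by
        intro h; apply ha; rw [h]; simp
      have h01 : g 0 1 = 0 := by
        rw [hu1] at e01
        have : ((a : ℝ) - 1) * g 0 1 = 0 := by linarith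
        rcases mul_eq_zero.mp this with h | h
        · exact absurd (by linarith) ha1
        · exact h
      have h10 : g 1 0 = 0 := by
        rw [hu1] at e10
        have : ((a : ℝ) - 1) * g 1 0 = 0 := by linarith
        rcases mul_eq_zero.mp this with h | h
        · exact absurd (by linarith) ha1
        · exact h
      rw [h01, zero_mul, sub_zero] at hdet
      have h0 : g 0 0 ≠ 0 := left_ne_zero_of_mul hdet
      have h1 : g 1 1 ≠ 0 := right_ne_zero_of_mul hdet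
      refine ⟨Units.mk0 _ (div_ne_zero h0 h1), ?_⟩
      unfold Dg
      rw [Matrix.ProjGenLinGroup.mk_eq_mk_iff]
      refine ⟨Units.mk0 _ (inv_ne_zero h1), ?_⟩
      ext i j
      fin_cases i <;> fin_cases j <;>
        simp [dg, Matrix.mul_apply, Fin.sum_univ_two, h01, h10, h1] <;> field_simp
    · exfalso
      have h00 : g 0 0 = 0 := by
        have : (a : ℝ) * g 0 0 * ((u : ℝ) - 1) = 0 := by linarith
        rcases mul_eq_zero.mp this with h | h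
        · exact (mul_eq_zero.mp h).resolve_left ha0
        · exact absurd (by linarith) hu1
      rw [h00, zero_mul, zero_sub, neg_ne_zero] at hdet
      have h01 : g 0 1 ≠ 0 := left_ne_zero_of_mul hdet
      have h10 : g 1 0 ≠ 0 := right_ne_zero_of_mul hdet
      have ua : (u : ℝ) = a := by
        have : g 0 1 * ((u : ℝ) - a) = 0 := by linarith
        have := (mul_eq_zero.mp this).resolve_left h01
        linarith
      have ua2 : (a : ℝ) * a = 1 := by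
        have : g 1 0 * ((a : ℝ) * u - 1) = 0 := by linarith
        have := (mul_eq_zero.mp this).resolve_left h10
        rw [ua] at this
        linarith
      apply ha
      have : |(a : ℝ)| * |(a : ℝ)| = 1 := by rw [← abs_mul, ua2, abs_one]
      nlinarith [abs_nonneg (a : ℝ)]

theorem cent_form (hε : 0 < ε) (hdisp : ∀ γ : Γ, γ ≠ 1 → ∀ z : ℍ, ε ≤ dist z (γ • z))
    {γ : Γ} (hγ : γ ≠ 1) :
    ∃ r : PGL(2, ℝ), ∀ δ : Γ, Commute δ γ → ∃ b : ℝˣ, (δ : PGL(2, ℝ)) = r⁻¹ * Dg b * r := by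
  obtain ⟨r, a, ha⟩ := normal_form hε (hdisp γ hγ)
  refine ⟨r, fun δ hδ ↦ ?_⟩
  have ha1 : |(a : ℝ)| ≠ 1 := by
    intro h
    have h1 := hdisp γ hγ (r⁻¹ • I)
    have h2 : γ • (r⁻¹ • I : ℍ) = r⁻¹ • I := by
      have : γ • (r⁻¹ • I : ℍ) = (γ : PGL(2, ℝ)) • (r⁻¹ • I : ℍ) := rfl
      rw [this, ha, smul_smul, mul_assoc, mul_inv_cancel, mul_one, mul_smul, Dg_smul_I a h]
    rw [h2, dist_self] at h1
    linarith
  have hcomm : (δ : PGL(2, ℝ)) * γ = γ * δ := congrArg Subtype.val hδ.eq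
  obtain ⟨b, hb⟩ := comm_Dg ha1 (d := r * δ * r⁻¹) (by
    have e : Dg a = r * γ * r⁻¹ := by rw [ha]; group
    rw [e]
    have : r * (δ : PGL(2, ℝ)) * r⁻¹ * (r * γ * r⁻¹) = r * (δ * γ) * r⁻¹ := by group
    rw [this, hcomm]; group)
  refine ⟨b, ?_⟩
  rw [← hb]; group

theorem cent_comm (hε : 0 < ε) (hdisp : ∀ γ : Γ, γ ≠ 1 → ∀ z : ℍ, ε ≤ dist z (γ • z))
    {γ : Γ} (hγ : γ ≠ 1) {δ δ' : Γ} (h : Commute δ γ) (h' : Commute δ' γ) : Commute δ δ' := by
  obtain ⟨r, hr⟩ := cent_form hε hdisp hγ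
  obtain ⟨b, hb⟩ := hr δ h
  obtain ⟨b', hb'⟩ := hr δ' h'
  apply Subtype.ext
  change (δ : PGL(2, ℝ)) * δ' = δ' * δ
  rw [hb, hb']
  have e1 : r⁻¹ * Dg b * r * (r⁻¹ * Dg b' * r) = r⁻¹ * (Dg b * Dg b') * r := by group
  have e2 : r⁻¹ * Dg b' * r * (r⁻¹ * Dg b * r) = r⁻¹ * (Dg b' * Dg b) * r := by group
  rw [e1, e2, Dg_comm]

theorem cent_eq (hε : 0 < ε) (hdisp : ∀ γ : Γ, γ ≠ 1 → ∀ z : ℍ, ε ≤ dist z (γ • z))
    {γ γ' : Γ} (hγ : γ ≠ 1) (hγ' : γ' ≠ 1) (h : Commute γ γ') (x : Γ) :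
    Commute x γ ↔ Commute x γ' :=
  ⟨fun hx ↦ cent_comm hε hdisp hγ hx h.symm, fun hx ↦ cent_comm hε hdisp hγ' hx h⟩

end centralizer

section projection

variable {Γ : Subgroup PGL(2, ℝ)} {ε : ℝ}

/-- nearest point type map to the axis `r⁻¹ (imaginary axis)` -/
noncomputable def proj (r : PGL(2, ℝ)) (z : ℍ) : ℍ :=
  r⁻¹ • ax ‖((r • z : ℍ) : ℂ)‖ (norm_coe_pos _)

theorem dist_proj (r : PGL(2, ℝ)) (z : ℍ) :
    dist z (proj r z) = dist (r • z) (ax ‖((r • z : ℍ) : ℂ)‖ (norm_coe_pos _)) := by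
  unfold proj
  rw [← dist_smul_smul r z, smul_inv_smul]

/-- the displacement bound for the projection -/
noncomputable def projBound (ε R : ℝ) : ℝ := √((Real.cosh R - 1) / (Real.cosh ε - 1))

theorem dist_proj_le (hε : 0 < ε) {r δ : PGL(2, ℝ)} {b : ℝˣ} (hδ : δ = r⁻¹ * Dg b * r)
    (hd : ∀ z : ℍ, ε ≤ dist z (δ • z)) {z : ℍ} {R : ℝ} (hz : dist z (δ • z) ≤ R) :
    dist z (proj r z) ≤ projBound ε R := by
  have hR : 0 ≤ R := dist_nonneg.trans hz
  set w : ℍ := r • z with hw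
  have e1 : dist w (Dg b • w) = dist z (δ • z) := by
    have : δ • z = r⁻¹ • (Dg b • w) := by
      rw [hδ, hw, smul_smul, smul_smul, mul_assoc]
    rw [this, ← dist_smul_smul r z, smul_inv_smul]
  have e2 : ε ≤ dist I (Dg b • I) := by
    have h1 := hd (r⁻¹ • I)
    have : δ • (r⁻¹ • I : ℍ) = r⁻¹ • (Dg b • I) := by
      rw [hδ, smul_smul, smul_smul, mul_assoc, mul_assoc, mul_inv_cancel, mul_one]
    rwa [this, dist_smul_smul] at h1
  have h1 := cosh_Dg b w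
  have h2 : Real.cosh ε ≤ Real.cosh (dist I (Dg b • I)) :=
    Real.cosh_le_cosh.mpr (by rwa [abs_of_pos hε, abs_of_nonneg dist_nonneg])
  have h3 : Real.cosh (dist w (Dg b • w)) ≤ Real.cosh R := by
    rw [e1]
    exact Real.cosh_le_cosh.mpr (by rwa [abs_of_nonneg hR, abs_of_nonneg dist_nonneg])
  have h4 : 0 < Real.cosh ε - 1 := by
    have := Real.one_lt_cosh.mpr hε.ne'
    linarith
  have hwim : 0 < w.im := w.im_pos
  have h5 : ‖(w : ℂ)‖ ^ 2 = w.re ^ 2 + w.im ^ 2 := by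
    rw [← Complex.normSq_eq_norm_sq, Complex.normSq_apply, coe_re, coe_im]; ring
  have h6 : (‖(w : ℂ)‖ / w.im) ^ 2 ≤ (Real.cosh R - 1) / (Real.cosh ε - 1) := by
    rw [div_pow, h5, le_div_iff₀ h4]
    have h7 : 0 ≤ (w.re ^ 2 + w.im ^ 2) / w.im ^ 2 := by positivity
    nlinarith
  have h8 : Real.cosh (dist z (proj r z)) ≤ projBound ε R := by
    rw [dist_proj, cosh_dist_ax]
    exact Real.le_sqrt_of_sq_le h6
  have h9 : dist z (proj r z) ≤ Real.cosh (dist z (proj r z)) := by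
    have a1 : dist z (proj r z) ≤ Real.sinh (dist z (proj r z)) :=
      Real.self_le_sinh_iff.mpr dist_nonneg
    exact a1.trans (Real.sinh_lt_cosh _).le
  exact h9.trans h8

end projection

section nd

variable {Γ : Subgroup PGL(2, ℝ)} {ε : ℝ}

theorem dist_ax_ax {y y' : ℝ} (hy : 0 < y) (hy' : 0 < y') :
    dist (ax y hy) (ax y' hy') = |Real.log y - Real.log y'| := by
  rw [dist_of_re_eq (by rfl)]
  rfl

/-- chain of points on the axis: two elements that both move two far away points a little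
commute -/
theorem nd_axis (hε : 0 < ε) (hdisp : ∀ γ : Γ, γ ≠ 1 → ∀ z : ℍ, ε ≤ dist z (γ • z))
    (hfin : ∀ R : ℝ, {γ : Γ | dist I (γ • I : ℍ) ≤ R}.Finite)
    {D : ℝ} (hco : ∀ z : ℍ, ∃ γ : Γ, dist I (γ • z : ℍ) ≤ D) (R : ℝ) :
    ∃ B : ℝ, ∀ (a b : Γ) (r : PGL(2, ℝ)) (y0 y1 : ℝ) (h0 : 0 < y0) (h1 : 0 < y1),
      ¬ Commute a b →
      dist (r⁻¹ • ax y0 h0) (a • (r⁻¹ • ax y0 h0)) ≤ R →
      dist (r⁻¹ • ax y0 h0) (b • (r⁻¹ • ax y0 h0)) ≤ R →
      dist (r⁻¹ • ax y1 h1) (a • (r⁻¹ • ax y1 h1)) ≤ R →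
      dist (r⁻¹ • ax y1 h1) (b • (r⁻¹ • ax y1 h1)) ≤ R →
      dist (r⁻¹ • ax y0 h0) (r⁻¹ • ax y1 h1) ≤ B := by
  classical
  have hD : 0 ≤ D := by
    obtain ⟨γ, hγ⟩ := hco I
    exact dist_nonneg.trans hγ
  set F := (hfin (2 * D + R)).toFinset with hFdef
  set N := (F ×ˢ F).card with hN
  refine ⟨(N + 1) * (2 * D + 1), ?_⟩
  -- it suffices to treat `y0 ≤ y1`
  suffices H : ∀ (a b : Γ) (r : PGL(2, ℝ)) (y0 y1 : ℝ) (h0 : 0 < y0) (h1 : 0 < y1), y0 ≤ y1 →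
      ¬ Commute a b →
      dist (r⁻¹ • ax y0 h0) (a • (r⁻¹ • ax y0 h0)) ≤ R →
      dist (r⁻¹ • ax y0 h0) (b • (r⁻¹ • ax y0 h0)) ≤ R →
      dist (r⁻¹ • ax y1 h1) (a • (r⁻¹ • ax y1 h1)) ≤ R →
      dist (r⁻¹ • ax y1 h1) (b • (r⁻¹ • ax y1 h1)) ≤ R →
      dist (r⁻¹ • ax y0 h0) (r⁻¹ • ax y1 h1) ≤ (N + 1) * (2 * D + 1) by
    intro a b r y0 y1 h0 h1 hab ha0 hb0 ha1 hb1
    rcases le_total y0 y1 with h | h
    · exact H a b r y0 y1 h0 h1 h hab ha0 hb0 ha1 hb1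
    · rw [dist_comm]
      exact H a b r y1 y0 h1 h0 h hab ha1 hb1 ha0 hb0
  intro a b r y0 y1 h0 h1 hle hab ha0 hb0 ha1 hb1
  by_contra hcon
  push Not at hcon
  have hlog : Real.log y0 ≤ Real.log y1 := Real.log_le_log h0 hle
  rw [dist_smul_smul, dist_ax_ax, abs_sub_comm, abs_of_nonneg (by linarith)] at hcon
  -- displacement along the axis
  have hconj : ∀ (c : Γ) (y : ℝ) (hy : 0 < y),
      dist (r⁻¹ • ax y hy) (c • (r⁻¹ • ax y hy))
        = dist (ax y hy) ((r * (c : PGL(2, ℝ)) * r⁻¹) • ax y hy) := by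
    intro c y hy
    have : c • (r⁻¹ • ax y hy : ℍ) = (c : PGL(2, ℝ)) • (r⁻¹ • ax y hy : ℍ) := rfl
    rw [this, ← dist_smul_smul r (r⁻¹ • ax y hy), smul_inv_smul, smul_smul, smul_smul, mul_assoc]
  have hmove : ∀ (c : Γ), dist (r⁻¹ • ax y0 h0) (c • (r⁻¹ • ax y0 h0)) ≤ R →
      dist (r⁻¹ • ax y1 h1) (c • (r⁻¹ • ax y1 h1)) ≤ R →
      ∀ (y : ℝ) (hy : 0 < y), y0 ≤ y → y ≤ y1 →
      dist (r⁻¹ • ax y hy) (c • (r⁻¹ • ax y hy)) ≤ R := by
    intro c hc0 hc1 y hy hy0 hy1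
    rw [hconj] at hc0 hc1 ⊢
    exact disp_quasi _ h0 hy0 hy1 hc0 hc1
  -- the points
  set yk : ℕ → ℝ := fun k ↦ y0 * Real.exp (k * (2 * D + 1)) with hyk
  have hykpos : ∀ k, 0 < yk k := fun k ↦ mul_pos h0 (Real.exp_pos _)
  have hyk0 : ∀ k, y0 ≤ yk k := fun k ↦ by
    rw [hyk]
    have : 1 ≤ Real.exp (k * (2 * D + 1)) := Real.one_le_exp (by positivity)
    simp only
    nlinarith
  have hyk1 : ∀ k : ℕ, k ≤ N + 1 → yk k ≤ y1 := fun k hk ↦ by
    have hk' : (k : ℝ) ≤ N + 1 := by exact_mod_cast hk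
    rw [← Real.exp_log h1, hyk]
    simp only
    rw [← Real.exp_log h0, ← Real.exp_add, Real.exp_le_exp]
    nlinarith
  set xk : ℕ → ℍ := fun k ↦ r⁻¹ • ax (yk k) (hykpos k) with hxk
  choose g hg using fun k ↦ hco (xk k)
  have hmem : ∀ (c : Γ) (k : ℕ), dist (xk k) (c • xk k) ≤ R → g k * c * (g k)⁻¹ ∈ F := by
    intro c k hc
    rw [hFdef, Set.Finite.mem_toFinset, Set.mem_ofPred_eq]
    have e2 : (g k * c * (g k)⁻¹) • (g k • xk k) = g k • (c • xk k) := by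
      rw [smul_smul, smul_smul]; congr 1; group
    have t2 : dist ((g k * c * (g k)⁻¹) • (g k • xk k)) ((g k * c * (g k)⁻¹) • I : ℍ)
        = dist (g k • xk k) I :=
      dist_smul_smul ((g k * c * (g k)⁻¹ : Γ) : PGL(2, ℝ)) _ I
    have t3 : dist (g k • xk k) ((g k * c * (g k)⁻¹) • (g k • xk k)) = dist (xk k) (c • xk k) := by
      rw [e2]; exact dist_smul_smul (g k : PGL(2, ℝ)) _ _
    have t1 := dist_triangle4 I (g k • xk k) ((g k * c * (g k)⁻¹) • (g k • xk k))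
      ((g k * c * (g k)⁻¹) • I : ℍ)
    rw [t2, t3, dist_comm (g k • xk k) I] at t1
    have := hg k
    linarith
  obtain ⟨k, hk, l, hl, hkl, heq⟩ := Finset.exists_ne_map_eq_of_card_lt_of_maps_to
    (s := Finset.range (N + 1)) (t := F ×ˢ F) (by rw [Finset.card_range, hN]; omega)
    (f := fun k ↦ (g k * a * (g k)⁻¹, g k * b * (g k)⁻¹)) (by
      intro k hk
      rw [Finset.coe_range, Set.mem_Iio] at hk
      rw [Finset.mem_coe, Finset.mem_product]
      exact ⟨hmem a k (hmove a ha0 ha1 _ _ (hyk0 k) (hyk1 k (by omega))),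
        hmem b k (hmove b hb0 hb1 _ _ (hyk0 k) (hyk1 k (by omega)))⟩)
  rw [Prod.mk.injEq] at heq
  obtain ⟨hea, heb⟩ := heq
  set h := (g l)⁻¹ * g k with hh
  have ca : Commute a h := by
    change a * h = h * a
    have : (g l)⁻¹ * (g l * a * (g l)⁻¹) * g k = (g l)⁻¹ * (g k * a * (g k)⁻¹) * g k := by rw [hea]
    have e1 : (g l)⁻¹ * (g l * a * (g l)⁻¹) * g k = a * h := by rw [hh]; group
    have e2 : (g l)⁻¹ * (g k * a * (g k)⁻¹) * g k = h * a := by rw [hh]; group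
    rw [← e1, ← e2, this]
  have cb : Commute b h := by
    change b * h = h * b
    have : (g l)⁻¹ * (g l * b * (g l)⁻¹) * g k = (g l)⁻¹ * (g k * b * (g k)⁻¹) * g k := by rw [heb]
    have e1 : (g l)⁻¹ * (g l * b * (g l)⁻¹) * g k = b * h := by rw [hh]; group
    have e2 : (g l)⁻¹ * (g k * b * (g k)⁻¹) * g k = h * b := by rw [hh]; group
    rw [← e1, ← e2, this]
  have hh1 : h = 1 := by
    by_contra hne
    exact hab (cent_comm hε hdisp hne ca cb)
  have hgkl : g k = g l := by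
    have : g l * h = g k := by rw [hh]; group
    rw [← this, hh1, mul_one]
  have hdist : dist (xk k) (xk l) ≤ 2 * D := by
    have e : dist (xk k) (xk l) = dist (g k • xk k) (g k • xk l) :=
      (dist_smul_smul (g k : PGL(2, ℝ)) _ _).symm
    have h3 := hg l
    rw [← hgkl] at h3
    have h4 := dist_triangle_left (g k • xk k) (g k • xk l) I
    have h5 := hg k
    rw [e]; linarith
  have hdist2 : dist (xk k) (xk l) = |((k : ℝ) - l) * (2 * D + 1)| := by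
    rw [hxk]
    simp only
    rw [dist_smul_smul, dist_ax_ax]
    congr 1
    rw [hyk]
    simp only
    rw [Real.log_mul h0.ne' (Real.exp_pos _).ne', Real.log_mul h0.ne' (Real.exp_pos _).ne',
      Real.log_exp, Real.log_exp]
    ring
  rw [hdist2, abs_mul, abs_of_pos (show (0 : ℝ) < 2 * D + 1 by linarith)] at hdist
  have h6 : (1 : ℝ) ≤ |(k : ℝ) - l| := by
    have : (1 : ℤ) ≤ |(k : ℤ) - l| := Int.one_le_abs (by omega)
    exact_mod_cast this
  nlinarith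

/-- points moved little by two non-commuting elements are close together -/
theorem nd_bound (hε : 0 < ε) (hdisp : ∀ γ : Γ, γ ≠ 1 → ∀ z : ℍ, ε ≤ dist z (γ • z))
    (hfin : ∀ R : ℝ, {γ : Γ | dist I (γ • I : ℍ) ≤ R}.Finite)
    {D : ℝ} (hco : ∀ z : ℍ, ∃ γ : Γ, dist I (γ • z : ℍ) ≤ D) (R : ℝ) :
    ∃ B : ℝ, ∀ (a b : Γ) (p q : ℍ), ¬ Commute a b →
      dist p (a • p) ≤ R → dist p (b • p) ≤ R → dist q (a • q) ≤ R → dist q (b • q) ≤ R →
      dist p q ≤ B := by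
  set C := projBound ε R with hC
  obtain ⟨B, hB⟩ := nd_axis hε hdisp hfin hco (R + 2 * C)
  refine ⟨B + 2 * C, fun a b p q hab hpa hpb hqa hqb ↦ ?_⟩
  have ha : a ≠ 1 := by
    rintro rfl; exact hab (Commute.one_left b)
  obtain ⟨r, hr⟩ := cent_form hε hdisp ha
  obtain ⟨s, hs⟩ := hr a (Commute.refl a)
  have hp1 : dist p (proj r p) ≤ C := dist_proj_le hε hs (hdisp a ha) hpa
  have hq1 : dist q (proj r q) ≤ C := dist_proj_le hε hs (hdisp a ha) hqa
  have hm : ∀ (c : Γ) (x : ℍ), dist x (c • x) ≤ R → dist x (proj r x) ≤ C →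
      dist (proj r x) (c • proj r x) ≤ R + 2 * C := by
    intro c x h1 h2
    have t1 := dist_triangle4 (proj r x) x (c • x) (c • proj r x)
    have t2 : dist (c • x) (c • proj r x) = dist x (proj r x) :=
      dist_smul_smul (c : PGL(2, ℝ)) _ _
    rw [t2, dist_comm (proj r x) x] at t1
    linarith
  have := hB a b r _ _ (norm_coe_pos (r • p)) (norm_coe_pos (r • q)) hab
    (hm a p hpa hp1) (hm b p hpb hp1) (hm a q hqa hq1) (hm b q hqb hq1)
  have h4 := dist_triangle4 p (proj r p) (proj r q) q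
  have h5 : dist (proj r p) (proj r q) ≤ B := this
  rw [dist_comm (proj r q) q] at h4
  linarith

end nd

end Pool.Agent.Helper93.ETC
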