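import Mathlib
import Pool.Agent.Helper93.ETC.Geo

/-!
The isometries of the hyperbolic plane as maps of the complex plane, smoothness, and averages of
points in hyperbolic balls.
-/

open UpperHalfPlane MatrixGroups Matrix

namespace Pool.Agent.Helper93.ETC

/-- The action of `g` as a map of the complex plane (meaningful on the upper half plane). -/
noncomputable def act (g : PGL(2, ℝ)) (z : ℂ) : ℂ := ((g • ofComplex z : ℍ) : ℂ)

theorem act_coe (g : PGL(2, ℝ)) (z : ℍ) : act g z = ((g • z : ℍ) : ℂ) := by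
  simp [act, ofComplex_apply]

theorem act_im_pos (g : PGL(2, ℝ)) (z : ℂ) : 0 < (act g z).im := (g • ofComplex z : ℍ).im_pos

theorem contDiffAt_act (g : PGL(2, ℝ)) {z : ℂ} (hz : 0 < z.im) : ContDiffAt ℝ 1 (act g) z := by
  induction g using Matrix.ProjGenLinGroup.induction_on with
  | mk h =>
    have e : act (Matrix.ProjGenLinGroup.mk h) =ᶠ[nhds z] fun w ↦ σ h (num h w * (denom h w)⁻¹) := by
      have : ∀ᶠ w in nhds z, 0 < w.im :=
        (isOpen_lt continuous_const Complex.continuous_im).mem_nhds hz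
      filter_upwards [this] with w hw
      rw [act, ofComplex_apply_of_im_pos hw, pglMk_smul, coe_smul, div_eq_mul_inv]
    refine ContDiffAt.congr_of_eventuallyEq ?_ e
    have hd : denom h z ≠ 0 := denom_ne_zero_of_im h hz.ne'
    have h1 : ContDiffAt ℝ 1 (fun w ↦ num h w * (denom h w)⁻¹) z := by
      apply ContDiffAt.mul
      · unfold num; fun_prop
      · apply ContDiffAt.inv
        · unfold denom; fun_prop
        · exact hd
    by_cases hdet : 0 < h.det.val
    · simp only [σ, hdet, if_true]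
      exact h1
    · simp only [σ, hdet, if_false]
      exact Complex.conjCLE.contDiff.contDiffAt.comp z h1

/-- the parametrization of the axis of `r` -/
noncomputable def crv (r : PGL(2, ℝ)) (s : ℝ) : ℂ := act r⁻¹ (Complex.I * s)

theorem contDiffAt_crv (r : PGL(2, ℝ)) {s : ℝ} (hs : 0 < s) : ContDiffAt ℝ 1 (crv r) s := by
  unfold crv
  apply ContDiffAt.comp s (g := act r⁻¹) (f := fun s : ℝ ↦ Complex.I * (s : ℂ))
  · exact contDiffAt_act _ (by simpa using hs)
  · apply ContDiffAt.mul contDiffAt_const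
    exact Complex.ofRealCLM.contDiff.contDiffAt

/-- the projection to the axis of `r`, as a map of the complex plane -/
noncomputable def prC (r : PGL(2, ℝ)) (z : ℂ) : ℂ := crv r ‖act r z‖

theorem prC_im_pos (r : PGL(2, ℝ)) (z : ℂ) : 0 < (prC r z).im := act_im_pos _ _

theorem prC_coe (r : PGL(2, ℝ)) (z : ℍ) : prC r z = (proj r z : ℂ) := by
  unfold prC proj crv
  rw [act_coe, ← act_coe r⁻¹]
  congr 1
  apply Complex.ext
  · simp [coe_ax]
  · simp [coe_ax]

theorem act_ne_zero (g : PGL(2, ℝ)) (z : ℂ) : act g z ≠ 0 := fun h ↦ by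
  have := act_im_pos g z
  rw [h] at this
  simp at this

theorem contDiffAt_prC (r : PGL(2, ℝ)) {z : ℂ} (hz : 0 < z.im) : ContDiffAt ℝ 1 (prC r) z := by
  unfold prC
  apply ContDiffAt.comp z (g := crv r) (f := fun z ↦ ‖act r z‖)
  · exact contDiffAt_crv _ (norm_pos_iff.mpr (act_ne_zero _ _))
  · exact (contDiffAt_act r hz).norm ℝ (act_ne_zero _ _)

/-- closed hyperbolic balls as subsets of the complex plane -/
def hb (c : ℍ) (r : ℝ) : Set ℂ := ((↑) : ℍ → ℂ) '' Metric.closedBall c r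

theorem convex_hb (c : ℍ) (r : ℝ) : Convex ℝ (hb c r) := by
  unfold hb
  rw [image_coe_closedBall]
  exact convex_closedBall _ _

theorem coe_mem_hb {c z : ℍ} {r : ℝ} : (z : ℂ) ∈ hb c r ↔ dist z c ≤ r := by
  unfold hb
  constructor
  · rintro ⟨w, hw, e⟩
    have : w = z := UpperHalfPlane.ext e
    rw [← this]; exact hw
  · intro h
    exact ⟨z, h, rfl⟩

theorem im_pos_of_mem_hb {c : ℍ} {r : ℝ} {z : ℂ} (hz : z ∈ hb c r) : 0 < z.im := by
  obtain ⟨w, _, rfl⟩ := hz
  exact w.im_pos

/-- averages of points of a convex set -/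
theorem avg_mem {ι : Type*} {C : Set ℂ} (hC : Convex ℝ C) (s : Finset ι) (w : ι → ℝ) (z : ι → ℂ)
    {a : ℝ} {q : ℂ} (ha : 0 ≤ a) (hw : ∀ i ∈ s, 0 ≤ w i) (hpos : 0 < a + ∑ i ∈ s, w i)
    (hq : a ≠ 0 → q ∈ C) (hz : ∀ i ∈ s, w i ≠ 0 → z i ∈ C) :
    (a + ∑ i ∈ s, w i)⁻¹ • (a • q + ∑ i ∈ s, w i • z i) ∈ C := by
  classical
  set w' : Option ι → ℝ := fun o ↦ o.elim a w with hw'
  set z' : Option ι → ℂ := fun o ↦ o.elim q z with hz'
  have e1 : ∑ o ∈ Finset.insertNone s, w' o = a + ∑ i ∈ s, w i := by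
    rw [Finset.sum_insertNone]; rfl
  have e2 : ∑ o ∈ Finset.insertNone s, w' o • z' o = a • q + ∑ i ∈ s, w i • z i := by
    rw [Finset.sum_insertNone]; rfl
  rw [← e1, ← e2]
  have : (Finset.insertNone s).centerMass w' z' ∈ C := by
    rw [← Finset.centerMass_filter_ne_zero]
    apply hC.centerMass_mem
    · intro o ho
      rw [Finset.mem_filter] at ho
      rcases o with _ | i
      · exact ha
      · exact hw i (by simpa using ho.1)
    · rw [Finset.sum_filter_ne_zero, e1]
      exact hpos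
    · intro o ho
      rw [Finset.mem_filter] at ho
      rcases o with _ | i
      · exact hq ho.2
      · exact hz i (by simpa using ho.1) ho.2
  exact this

theorem avg_mem' {ι : Type*} {C : Set ℂ} (hC : Convex ℝ C) (s : Finset ι) (w : ι → ℝ) (z : ι → ℂ)
    (hw : ∀ i ∈ s, 0 ≤ w i) (hpos : 0 < ∑ i ∈ s, w i)
    (hz : ∀ i ∈ s, w i ≠ 0 → z i ∈ C) :
    (∑ i ∈ s, w i)⁻¹ • (∑ i ∈ s, w i • z i) ∈ C := by
  have := avg_mem hC s w z (a := 0) (q := 0) le_rfl hw (by simpa using hpos) (by simp) hz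
  simpa using this

/-- the upper half plane is convex -/
theorem convex_upper : Convex ℝ {z : ℂ | 0 < z.im} := by
  have : {z : ℂ | 0 < z.im} = Complex.imLm ⁻¹' Set.Ioi 0 := rfl
  rw [this]
  exact (convex_Ioi 0).linear_preimage _

end Pool.Agent.Helper93.ETC
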