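import Mathlib
import Pool.Agent.Helper93.ETC.Brouwer
import Pool.Agent.Helper93.ETC.Smooth

/-!
A continuous map of `ℍ × ℍ` that moves points a bounded distance is locally surjective.
-/

open UpperHalfPlane MatrixGroups Matrix

namespace Pool.Agent.Helper93.ETC

theorem hb_bounds {z : ℍ} {θ : ℂ} {Δ : ℝ} (h : θ ∈ hb z Δ) :
    0 < θ.im ∧ |z.re - θ.re| ≤ θ.im * Real.exp Δ ∧ z.im ≤ θ.im * Real.exp Δ ∧
      θ.im ≤ z.im * Real.exp Δ := by
  obtain ⟨w, hw, rfl⟩ := h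
  rw [Metric.mem_closedBall] at hw
  have hw' : dist z w ≤ Δ := by rwa [dist_comm]
  have hwi : 0 < w.im := w.im_pos
  have hzi : 0 < z.im := z.im_pos
  refine ⟨w.im_pos, ?_, ?_, ?_⟩
  · have h1 := dist_coe_le z w
    have h2 : |z.re - w.re| ≤ dist (z : ℂ) w := by
      rw [dist_eq_norm]
      have := Complex.abs_re_le_norm ((z : ℂ) - w)
      simpa using this
    have h3 : Real.exp (dist z w) ≤ Real.exp Δ := Real.exp_le_exp.mpr hw'
    rw [coe_re, coe_im]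
    nlinarith
  · have h1 := im_le_im_mul_exp_dist z w
    have h3 : Real.exp (dist z w) ≤ Real.exp Δ := Real.exp_le_exp.mpr hw'
    rw [coe_im]
    nlinarith
  · have h1 := im_le_im_mul_exp_dist w z
    have h3 : Real.exp (dist w z) ≤ Real.exp Δ := Real.exp_le_exp.mpr hw
    rw [coe_im]
    nlinarith

theorem near_I {p : ℂ} (h : p ∈ hb I 1) : 1 / 3 ≤ p.im ∧ p.im ≤ 3 ∧ |p.re| ≤ 9 := by
  obtain ⟨h0, h1, h2, h3⟩ := hb_bounds h
  have he : Real.exp 1 ≤ 3 := by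
    have := Real.exp_one_lt_d9
    linarith
  rw [I_im] at h2 h3
  rw [I_re, zero_sub, abs_neg] at h1
  refine ⟨?_, by linarith, ?_⟩
  · nlinarith
  · nlinarith

theorem dist_I_le {z : ℍ} {A : ℝ} (hA : 1 ≤ A) (h1 : 1 / (3 * A) ≤ z.im) (h2 : z.im ≤ 3 * A)
    (h3 : |z.re| ≤ 9 + 3 * A) : dist z I ≤ (10 + 6 * A) / √(1 / (3 * A)) := by
  refine (dist_le_dist_coe_div_sqrt z I).trans ?_
  rw [I_im, mul_one]
  have hA' : 0 < 1 / (3 * A) := by positivity
  apply div_le_div₀ (by positivity)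
  · rw [dist_eq_norm]
    have := Complex.norm_le_abs_re_add_abs_im ((z : ℂ) - I)
    simp only [Complex.sub_re, Complex.sub_im, coe_re, coe_im, I_re, I_im, sub_zero] at this
    have h4 : |z.im - 1| ≤ 1 + 3 * A := by
      rw [abs_le]
      have := z.im_pos
      constructor <;> linarith
    linarith
  · exact Real.sqrt_pos.mpr hA'
  · exact Real.sqrt_le_sqrt h1

/-- the coordinate map -/
noncomputable def pt (v : Fin 4 → ℝ) : ℍ × ℍ :=
  (ofComplex ⟨v 0, v 1⟩, ofComplex ⟨v 2, v 3⟩)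

theorem continuousAt_ofComplex {z : ℂ} (hz : 0 < z.im) : ContinuousAt ofComplex z := by
  rw [isEmbedding_coe.continuousAt_iff]
  have : (fun w ↦ w) =ᶠ[nhds z] (UpperHalfPlane.coe ∘ ofComplex) := by
    have h : ∀ᶠ w in nhds z, 0 < w.im :=
      (isOpen_lt continuous_const Complex.continuous_im).mem_nhds hz
    filter_upwards [h] with w hw
    simp [ofComplex_apply_of_im_pos hw]
  exact continuousAt_id.congr this

theorem continuousAt_pt {v : Fin 4 → ℝ} (h1 : 0 < v 1) (h3 : 0 < v 3) : ContinuousAt pt v := by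
  unfold pt
  have mk : ∀ i j : Fin 4, Continuous fun v : Fin 4 → ℝ ↦ (⟨v i, v j⟩ : ℂ) := fun i j ↦ by
    have : (fun v : Fin 4 → ℝ ↦ (⟨v i, v j⟩ : ℂ)) = fun v ↦ (v i : ℂ) + (v j : ℂ) * Complex.I := by
      ext v
      apply Complex.ext <;> simp
    rw [this]
    fun_prop
  apply ContinuousAt.prodMk
  · exact ContinuousAt.comp (g := ofComplex) (f := fun v : Fin 4 → ℝ ↦ (⟨v 0, v 1⟩ : ℂ))
      (continuousAt_ofComplex h1) (mk 0 1).continuousAt
  · exact ContinuousAt.comp (g := ofComplex) (f := fun v : Fin 4 → ℝ ↦ (⟨v 2, v 3⟩ : ℂ))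
      (continuousAt_ofComplex h3) (mk 2 3).continuousAt

theorem final {Δ : ℝ} (hΔ : 0 ≤ Δ) : ∃ ρ : ℝ, ∀ F : ℍ × ℍ → ℂ × ℂ,
    ContinuousOn F (Metric.closedBall I ρ ×ˢ Metric.closedBall I ρ) →
    (∀ P ∈ Metric.closedBall (I : ℍ) ρ ×ˢ Metric.closedBall (I : ℍ) ρ,
      (F P).1 ∈ hb P.1 Δ ∧ (F P).2 ∈ hb P.2 Δ) →
    ∀ P0 : ℂ × ℂ, P0.1 ∈ hb I 1 → P0.2 ∈ hb I 1 →
      ∃ P ∈ Metric.closedBall (I : ℍ) ρ ×ˢ Metric.closedBall (I : ℍ) ρ, F P = P0 := by
  set A := Real.exp Δ with hAdef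
  have hA : 1 ≤ A := Real.one_le_exp hΔ
  have hA0 : 0 < A := by linarith
  refine ⟨(10 + 6 * A) / √(1 / (3 * A)), fun F hF hFd P0 h1 h2 ↦ ?_⟩
  set ρ := (10 + 6 * A) / √(1 / (3 * A)) with hρ
  obtain ⟨a1, a2, a3⟩ := near_I h1
  obtain ⟨b1, b2, b3⟩ := near_I h2
  set x1 := P0.1.re with hx1
  set y1 := P0.1.im with hy1
  set x2 := P0.2.re with hx2
  set y2 := P0.2.im with hy2
  have hy1p : 0 < y1 := by linarith
  have hy2p : 0 < y2 := by linarith
  set lo : Fin 4 → ℝ := ![x1 - y1 * A, y1 / A, x2 - y2 * A, y2 / A] with hlo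
  set hi : Fin 4 → ℝ := ![x1 + y1 * A, y1 * A, x2 + y2 * A, y2 * A] with hhi
  have hdiv : ∀ y : ℝ, 0 < y → y / A ≤ y * A := fun y hy ↦ by
    rw [div_le_iff₀ hA0]
    have h1 : 1 ≤ A * A := by nlinarith
    nlinarith
  have hle : lo ≤ hi := by
    intro i
    fin_cases i
    · simp [hlo, hhi]; nlinarith
    · simpa [hlo, hhi] using hdiv y1 hy1p
    · simp [hlo, hhi]; nlinarith
    · simpa [hlo, hhi] using hdiv y2 hy2p
  -- coordinates of points of the box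
  have hbox : ∀ v ∈ Set.Icc lo hi, (x1 - y1 * A ≤ v 0 ∧ v 0 ≤ x1 + y1 * A) ∧
      (y1 / A ≤ v 1 ∧ v 1 ≤ y1 * A) ∧ (x2 - y2 * A ≤ v 2 ∧ v 2 ≤ x2 + y2 * A) ∧
      (y2 / A ≤ v 3 ∧ v 3 ≤ y2 * A) := by
    intro v hv
    obtain ⟨hv1, hv2⟩ := hv
    exact ⟨⟨hv1 0, hv2 0⟩, ⟨hv1 1, hv2 1⟩, ⟨hv1 2, hv2 2⟩, ⟨hv1 3, hv2 3⟩⟩
  have hcoord : ∀ (x y a b : ℝ), 1 / 3 ≤ y → y ≤ 3 → |x| ≤ 9 → x - y * A ≤ a → a ≤ x + y * A →
      y / A ≤ b → b ≤ y * A → 0 < b ∧ ofComplex ⟨a, b⟩ ∈ Metric.closedBall (I : ℍ) ρ := by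
    intro x y a b hy hy' hx ha ha' hb hb'
    have hb0 : 0 < b := lt_of_lt_of_le (div_pos (by linarith) hA0) hb
    refine ⟨hb0, ?_⟩
    rw [Metric.mem_closedBall, ofComplex_apply_of_im_pos (z := ⟨a, b⟩) hb0]
    apply dist_I_le hA
    · change 1 / (3 * A) ≤ b
      refine le_trans ?_ hb
      rw [div_le_div_iff₀ (by positivity) hA0]
      nlinarith
    · change b ≤ 3 * A
      nlinarith
    · change |a| ≤ 9 + 3 * A
      rw [abs_le] at hx ⊢
      constructor <;> nlinarith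
  have hpt : ∀ v ∈ Set.Icc lo hi, 0 < v 1 ∧ 0 < v 3 ∧
      pt v ∈ Metric.closedBall (I : ℍ) ρ ×ˢ Metric.closedBall (I : ℍ) ρ := by
    intro v hv
    obtain ⟨⟨c1, c2⟩, ⟨c3, c4⟩, ⟨c5, c6⟩, ⟨c7, c8⟩⟩ := hbox v hv
    obtain ⟨d1, d2⟩ := hcoord x1 y1 (v 0) (v 1) a1 a2 a3 c1 c2 c3 c4
    obtain ⟨d3, d4⟩ := hcoord x2 y2 (v 2) (v 3) b1 b2 b3 c5 c6 c7 c8
    exact ⟨d1, d3, d2, d4⟩
  set f : (Fin 4 → ℝ) → (Fin 4 → ℝ) := fun v ↦
    ![(v 0 - (F (pt v)).1.re) / (F (pt v)).1.im * y1 + x1, v 1 / (F (pt v)).1.im * y1,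
      (v 2 - (F (pt v)).2.re) / (F (pt v)).2.im * y2 + x2, v 3 / (F (pt v)).2.im * y2] with hf
  have hFpt : ∀ v ∈ Set.Icc lo hi, (F (pt v)).1 ∈ hb (pt v).1 Δ ∧ (F (pt v)).2 ∈ hb (pt v).2 Δ :=
    fun v hv ↦ hFd _ (hpt v hv).2.2
  have hptre : ∀ v ∈ Set.Icc lo hi, (pt v).1.re = v 0 ∧ (pt v).1.im = v 1 ∧ (pt v).2.re = v 2 ∧
      (pt v).2.im = v 3 := by
    intro v hv
    obtain ⟨e1, e2, _⟩ := hpt v hv
    unfold pt
    simp only
    rw [ofComplex_apply_of_im_pos (z := ⟨v 0, v 1⟩) e1,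
      ofComplex_apply_of_im_pos (z := ⟨v 2, v 3⟩) e2]
    exact ⟨rfl, rfl, rfl, rfl⟩
  have hcont : ContinuousOn (fun v ↦ F (pt v)) (Set.Icc lo hi) := by
    apply hF.comp (t := Metric.closedBall (I : ℍ) ρ ×ˢ Metric.closedBall (I : ℍ) ρ)
    · intro v hv
      obtain ⟨e1, e2, _⟩ := hpt v hv
      exact (continuousAt_pt e1 e2).continuousWithinAt
    · intro v hv
      exact (hpt v hv).2.2
  have hfc : ContinuousOn f (Set.Icc lo hi) := by
    have r1 : ContinuousOn (fun v ↦ (F (pt v)).1.re) (Set.Icc lo hi) :=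
      Complex.continuous_re.comp_continuousOn (continuous_fst.comp_continuousOn hcont)
    have r2 : ContinuousOn (fun v ↦ (F (pt v)).1.im) (Set.Icc lo hi) :=
      Complex.continuous_im.comp_continuousOn (continuous_fst.comp_continuousOn hcont)
    have r3 : ContinuousOn (fun v ↦ (F (pt v)).2.re) (Set.Icc lo hi) :=
      Complex.continuous_re.comp_continuousOn (continuous_snd.comp_continuousOn hcont)
    have r4 : ContinuousOn (fun v ↦ (F (pt v)).2.im) (Set.Icc lo hi) :=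
      Complex.continuous_im.comp_continuousOn (continuous_snd.comp_continuousOn hcont)
    have n2 : ∀ v ∈ Set.Icc lo hi, (F (pt v)).1.im ≠ 0 := fun v hv ↦
      (im_pos_of_mem_hb (hFpt v hv).1).ne'
    have n4 : ∀ v ∈ Set.Icc lo hi, (F (pt v)).2.im ≠ 0 := fun v hv ↦
      (im_pos_of_mem_hb (hFpt v hv).2).ne'
    have c : ∀ i : Fin 4, ContinuousOn (fun v : Fin 4 → ℝ ↦ v i) (Set.Icc lo hi) := fun i ↦
      (continuous_apply i).continuousOn
    apply continuousOn_pi.mpr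
    intro i
    fin_cases i
    · exact ((((c 0).sub r1).div r2 n2).mul continuousOn_const).add continuousOn_const
    · exact ((c 1).div r2 n2).mul continuousOn_const
    · exact ((((c 2).sub r3).div r4 n4).mul continuousOn_const).add continuousOn_const
    · exact ((c 3).div r4 n4).mul continuousOn_const
  have hstep : ∀ (z : ℍ) (θ : ℂ) (x y : ℝ), θ ∈ hb z Δ → 0 < y →
      (x - y * A ≤ (z.re - θ.re) / θ.im * y + x ∧ (z.re - θ.re) / θ.im * y + x ≤ x + y * A) ∧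
      (y / A ≤ z.im / θ.im * y ∧ z.im / θ.im * y ≤ y * A) := by
    intro z θ x y hθ hy
    obtain ⟨g0, g1, g2, g3⟩ := hb_bounds hθ
    rw [← hAdef] at g1 g2 g3
    have k1 : |(z.re - θ.re) / θ.im| ≤ A := by
      rw [abs_div, abs_of_pos g0, div_le_iff₀ g0]
      linarith
    have k2 : z.im / θ.im ≤ A := by
      rw [div_le_iff₀ g0]; linarith
    have k3 : 1 / A ≤ z.im / θ.im := by
      rw [div_le_div_iff₀ hA0 g0]; linarith
    rw [abs_le] at k1
    refine ⟨⟨by nlinarith, by nlinarith⟩, ?_, by nlinarith⟩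
    have : y / A = 1 / A * y := by ring
    rw [this]
    nlinarith
  have hmaps : Set.MapsTo f (Set.Icc lo hi) (Set.Icc lo hi) := by
    intro v hv
    obtain ⟨e1, e2, e3, e4⟩ := hptre v hv
    obtain ⟨⟨k1, k2⟩, k3, k4⟩ := hstep (pt v).1 (F (pt v)).1 x1 y1 (hFpt v hv).1 hy1p
    obtain ⟨⟨l1, l2⟩, l3, l4⟩ := hstep (pt v).2 (F (pt v)).2 x2 y2 (hFpt v hv).2 hy2p
    rw [e1] at k1 k2
    rw [e2] at k3 k4
    rw [e3] at l1 l2
    rw [e4] at l3 l4
    constructor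
    · intro i
      fin_cases i
      · exact k1
      · exact k3
      · exact l1
      · exact l3
    · intro i
      fin_cases i
      · exact k2
      · exact k4
      · exact l2
      · exact l4
  obtain ⟨v, hv, hfv⟩ := brouwer_box lo hi hle f hfc hmaps
  refine ⟨pt v, (hpt v hv).2.2, ?_⟩
  obtain ⟨e1, e2, _⟩ := hpt v hv
  have q1 : 0 < (F (pt v)).1.im := im_pos_of_mem_hb (hFpt v hv).1
  have q2 : 0 < (F (pt v)).2.im := im_pos_of_mem_hb (hFpt v hv).2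
  have f0 : (v 0 - (F (pt v)).1.re) / (F (pt v)).1.im * y1 + x1 = v 0 := congrFun hfv 0
  have f1 : v 1 / (F (pt v)).1.im * y1 = v 1 := congrFun hfv 1
  have f2 : (v 2 - (F (pt v)).2.re) / (F (pt v)).2.im * y2 + x2 = v 2 := congrFun hfv 2
  have f3 : v 3 / (F (pt v)).2.im * y2 = v 3 := congrFun hfv 3
  have s1 : y1 = (F (pt v)).1.im := by
    field_simp at f1
    linarith
  have s2 : y2 = (F (pt v)).2.im := by
    field_simp at f3
    linarith
  have s3 : x1 = (F (pt v)).1.re := by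
    rw [s1, div_mul_cancel₀ _ q1.ne'] at f0
    linarith
  have s4 : x2 = (F (pt v)).2.re := by
    rw [s2, div_mul_cancel₀ _ q2.ne'] at f2
    linarith
  apply Prod.ext
  · exact Complex.ext s3.symm s1.symm
  · exact Complex.ext s4.symm s2.symm

end Pool.Agent.Helper93.ETC
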