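import Mathlib
import Pool.Agent.Helper93.ETC.Smooth

/-!
The map `Θ`: definition, smoothness, displacement.
-/

open UpperHalfPlane MatrixGroups Matrix

set_option linter.unusedSectionVars false

namespace Pool.Agent.Helper93.ETC

/-- the data that define the map `Θ` -/
structure Dat (ι κ : Type) where
  g : ι → PGL(2, ℝ)
  nd : Finset (ι × ι × ι)
  zz : ι × ι × ι → ℍ
  prs : κ → Finset (ι × ι)
  r : κ → PGL(2, ℝ)

namespace Dat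

variable {ι κ : Type} [Fintype ι] [Fintype κ] (S : Dat ι κ)

/-- a smooth function vanishing exactly on the nonpositive reals -/
noncomputable abbrev bp (x : ℝ) : ℝ := expNegInvGlue x

omit [Fintype ι] [Fintype κ] in
theorem bp_contDiff : ContDiff ℝ 1 bp := expNegInvGlue.contDiff

/-- weight of a triple -/
def tri (τ : ι → ℝ) (x : ι × ι × ι) : ℝ := τ x.1 * τ x.2.1 * τ x.2.2

/-- total weight of the nondegenerate triples -/
noncomputable def W (τ : ι → ℝ) : ℝ := ∑ x ∈ S.nd, tri τ x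

/-- the threshold for `W` -/
noncomputable def kap : ℝ := (1 / 3072) ^ 3

/-- the second coordinate -/
noncomputable def Qf (x : (ι → ℝ) × ℂ) : ℂ :=
  (bp (kap - S.W x.1) + ∑ i ∈ S.nd, tri x.1 i)⁻¹ •
    (bp (kap - S.W x.1) • x.2 + ∑ i ∈ S.nd, tri x.1 i • (S.zz i : ℂ))

/-- average of the translates -/
noncomputable def Hf (x : (ι → ℝ) × ℂ) : ℂ :=
  (∑ i, bp (8 * x.1 i - 1))⁻¹ • (∑ i, bp (8 * x.1 i - 1) • act (S.g i) x.2)

/-- total weight of the pairs of a class -/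
noncomputable def E (m : κ) (τ : ι → ℝ) : ℝ := ∑ x ∈ S.prs m, τ x.1 * τ x.2

/-- weight of a class -/
noncomputable def rr (τ : ι → ℝ) (m : κ) : ℝ := bp (S.E m τ - 1 / 192)

/-- weight of no class -/
noncomputable def bb (τ : ι → ℝ) : ℝ := ∏ m, bp (1 / 96 - S.E m τ)

/-- average with the projections -/
noncomputable def Tf (x : (ι → ℝ) × ℂ) : ℂ :=
  (S.bb x.1 + ∑ m, S.rr x.1 m)⁻¹ • (S.bb x.1 • x.2 + ∑ m, S.rr x.1 m • prC (S.r m) x.2)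

/-- the map `Θ` -/
noncomputable def Th (x : (ι → ℝ) × ℂ) : ℂ × ℂ := (S.Tf (x.1, S.Hf (x.1, S.Qf x)), S.Qf x)

/-! ### positivity -/

theorem tri_nonneg {τ : ι → ℝ} (h : ∀ i, 0 ≤ τ i) (x : ι × ι × ι) : 0 ≤ tri τ x :=
  mul_nonneg (mul_nonneg (h _) (h _)) (h _)

theorem W_nonneg {τ : ι → ℝ} (h : ∀ i, 0 ≤ τ i) : 0 ≤ S.W τ :=
  Finset.sum_nonneg fun x _ ↦ tri_nonneg h x

theorem kap_pos : 0 < kap := by unfold kap; positivity

theorem den_Q_pos {τ : ι → ℝ} (h : ∀ i, 0 ≤ τ i) :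
    0 < bp (kap - S.W τ) + ∑ i ∈ S.nd, tri τ i := by
  have h1 : 0 ≤ bp (kap - S.W τ) := expNegInvGlue.nonneg _
  have h2 : 0 ≤ ∑ i ∈ S.nd, tri τ i := S.W_nonneg h
  rcases h2.eq_or_lt with h3 | h3
  · have : S.W τ = 0 := h3.symm
    rw [this, sub_zero]
    have := expNegInvGlue.pos_of_pos kap_pos
    change 0 < expNegInvGlue kap + _
    linarith
  · linarith

theorem den_H_pos {τ : ι → ℝ} {i : ι} (hi : 1 / 4 ≤ τ i) : 0 < ∑ i, bp (8 * τ i - 1) := by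
  have h1 : 0 < bp (8 * τ i - 1) := expNegInvGlue.pos_of_pos (by linarith)
  exact h1.trans_le (Finset.single_le_sum (f := fun i ↦ bp (8 * τ i - 1))
    (fun j _ ↦ expNegInvGlue.nonneg _) (Finset.mem_univ i))

theorem bb_nonneg (τ : ι → ℝ) : 0 ≤ S.bb τ :=
  Finset.prod_nonneg fun _ _ ↦ expNegInvGlue.nonneg _

theorem rr_nonneg (τ : ι → ℝ) (m : κ) : 0 ≤ S.rr τ m := expNegInvGlue.nonneg _

theorem den_T_pos (τ : ι → ℝ) : 0 < S.bb τ + ∑ m, S.rr τ m := by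
  have h2 : 0 ≤ ∑ m, S.rr τ m := Finset.sum_nonneg fun m _ ↦ S.rr_nonneg τ m
  rcases (S.bb_nonneg τ).eq_or_lt with h | h
  · have : ∃ m, bp (1 / 96 - S.E m τ) = 0 := by
      have := Finset.prod_eq_zero_iff.mp h.symm
      obtain ⟨m, _, hm⟩ := this
      exact ⟨m, hm⟩
    obtain ⟨m, hm⟩ := this
    rw [bp, expNegInvGlue.zero_iff_nonpos] at hm
    have h1 : 0 < S.rr τ m := expNegInvGlue.pos_of_pos (by linarith)
    have h3 : S.rr τ m ≤ ∑ m, S.rr τ m :=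
      Finset.single_le_sum (fun m _ ↦ S.rr_nonneg τ m) (Finset.mem_univ m)
    linarith
  · linarith

/-! ### location -/

theorem Qf_mem {C : Set ℂ} (hC : Convex ℝ C) {τ : ι → ℝ} {q : ℂ} (h : ∀ i, 0 ≤ τ i)
    (hq : q ∈ C) (hz : ∀ x ∈ S.nd, tri τ x ≠ 0 → (S.zz x : ℂ) ∈ C) : S.Qf (τ, q) ∈ C :=
  avg_mem hC _ _ _ (expNegInvGlue.nonneg _) (fun _ _ ↦ tri_nonneg h _) (S.den_Q_pos h)
    (fun _ ↦ hq) hz

theorem Hf_mem {C : Set ℂ} (hC : Convex ℝ C) {τ : ι → ℝ} {q : ℂ} {i : ι} (hi : 1 / 4 ≤ τ i)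
    (hz : ∀ j, τ j ≠ 0 → act (S.g j) q ∈ C) : S.Hf (τ, q) ∈ C := by
  refine avg_mem' hC _ _ _ (fun _ _ ↦ expNegInvGlue.nonneg _) (den_H_pos hi) fun j _ hj ↦ ?_
  apply hz j
  rintro h0
  apply hj
  change bp (8 * τ j - 1) = 0
  rw [h0]
  exact expNegInvGlue.zero_of_nonpos (by norm_num)

theorem Tf_mem {C : Set ℂ} (hC : Convex ℝ C) {τ : ι → ℝ} {q : ℂ} (hq : q ∈ C)
    (hz : ∀ m, (∃ x ∈ S.prs m, τ x.1 ≠ 0 ∧ τ x.2 ≠ 0) → prC (S.r m) q ∈ C) :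
    S.Tf (τ, q) ∈ C := by
  refine avg_mem hC _ _ _ (S.bb_nonneg _) (fun _ _ ↦ S.rr_nonneg _ _) (S.den_T_pos τ)
    (fun _ ↦ hq) fun m _ hm ↦ ?_
  apply hz m
  by_contra hcon
  push Not at hcon
  apply hm
  have : S.E m τ = 0 := by
    apply Finset.sum_eq_zero
    intro x hx
    by_cases h1 : τ x.1 = 0
    · rw [h1, zero_mul]
    · rw [hcon x hx h1, mul_zero]
  unfold rr
  rw [this]
  exact expNegInvGlue.zero_of_nonpos (by norm_num)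

theorem Qf_im_pos {τ : ι → ℝ} {q : ℂ} (h : ∀ i, 0 ≤ τ i) (hq : 0 < q.im) :
    0 < (S.Qf (τ, q)).im :=
  S.Qf_mem (C := {z : ℂ | 0 < z.im}) convex_upper h hq (fun x _ _ ↦ (S.zz x).im_pos)

theorem Hf_im_pos {τ : ι → ℝ} {q : ℂ} {i : ι} (hi : 1 / 4 ≤ τ i) :
    0 < (S.Hf (τ, q)).im :=
  S.Hf_mem (C := {z : ℂ | 0 < z.im}) convex_upper hi (fun _ _ ↦ act_im_pos _ _)

/-! ### smoothness -/

theorem contDiff_tri (x : ι × ι × ι) : ContDiff ℝ 1 fun τ : ι → ℝ ↦ tri τ x := by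
  unfold tri; fun_prop

theorem contDiff_W : ContDiff ℝ 1 S.W := by
  unfold W
  exact ContDiff.sum fun x _ ↦ contDiff_tri x

theorem contDiff_E (m : κ) : ContDiff ℝ 1 (S.E m) := by
  unfold E; fun_prop

theorem contDiffAt_Qf {x : (ι → ℝ) × ℂ} (h : ∀ i, 0 ≤ x.1 i) : ContDiffAt ℝ 1 S.Qf x := by
  have h1 : ContDiffAt ℝ 1 (fun x : (ι → ℝ) × ℂ ↦ bp (kap - S.W x.1)) x := by
    apply ContDiff.contDiffAt
    exact bp_contDiff.comp (contDiff_const.sub (S.contDiff_W.comp contDiff_fst))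
  have h2 : ∀ i : ι × ι × ι, ContDiffAt ℝ 1 (fun x : (ι → ℝ) × ℂ ↦ tri x.1 i) x := fun i ↦
    ((contDiff_tri i).comp contDiff_fst).contDiffAt
  unfold Qf
  apply ContDiffAt.fun_smul
  · apply ContDiffAt.fun_inv
    · exact h1.add (ContDiffAt.sum fun i _ ↦ h2 i)
    · exact (S.den_Q_pos h).ne'
  · exact (h1.smul contDiffAt_snd).add (ContDiffAt.sum fun i _ ↦ (h2 i).smul contDiffAt_const)

theorem contDiffAt_Hf {x : (ι → ℝ) × ℂ} {i : ι} (hi : 1 / 4 ≤ x.1 i) (hx : 0 < x.2.im) :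
    ContDiffAt ℝ 1 S.Hf x := by
  have h1 : ∀ i : ι, ContDiffAt ℝ 1 (fun x : (ι → ℝ) × ℂ ↦ bp (8 * x.1 i - 1)) x := fun i ↦ by
    apply ContDiff.contDiffAt
    apply bp_contDiff.comp
    fun_prop
  have h2 : ∀ i : ι, ContDiffAt ℝ 1 (fun x : (ι → ℝ) × ℂ ↦ act (S.g i) x.2) x := fun i ↦
    (contDiffAt_act (S.g i) hx).comp x contDiffAt_snd
  unfold Hf
  apply ContDiffAt.fun_smul
  · apply ContDiffAt.fun_inv
    · exact ContDiffAt.sum fun i _ ↦ h1 i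
    · exact (den_H_pos hi).ne'
  · exact ContDiffAt.sum fun i _ ↦ (h1 i).smul (h2 i)

theorem contDiffAt_Tf {x : (ι → ℝ) × ℂ} (hx : 0 < x.2.im) :
    ContDiffAt ℝ 1 S.Tf x := by
  have h1 : ∀ m : κ, ContDiffAt ℝ 1 (fun x : (ι → ℝ) × ℂ ↦ S.rr x.1 m) x := fun m ↦ by
    apply ContDiff.contDiffAt
    unfold rr
    exact bp_contDiff.comp (((S.contDiff_E m).comp contDiff_fst).sub contDiff_const)
  have h2 : ContDiffAt ℝ 1 (fun x : (ι → ℝ) × ℂ ↦ S.bb x.1) x := by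
    apply ContDiff.contDiffAt
    unfold bb
    apply contDiff_prod
    intro m _
    exact bp_contDiff.comp (contDiff_const.sub ((S.contDiff_E m).comp contDiff_fst))
  have h3 : ∀ m : κ, ContDiffAt ℝ 1 (fun x : (ι → ℝ) × ℂ ↦ prC (S.r m) x.2) x := fun m ↦
    (contDiffAt_prC (S.r m) hx).comp x contDiffAt_snd
  unfold Tf
  apply ContDiffAt.fun_smul
  · apply ContDiffAt.fun_inv
    · exact h2.add (ContDiffAt.sum fun m _ ↦ h1 m)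
    · exact (S.den_T_pos x.1).ne'
  · exact (h2.smul contDiffAt_snd).add (ContDiffAt.sum fun m _ ↦ (h1 m).smul (h3 m))

theorem contDiffAt_Th {τ : ι → ℝ} {q : ℂ} (h : ∀ i, 0 ≤ τ i) {i : ι} (hi : 1 / 4 ≤ τ i)
    (hx : 0 < q.im) : ContDiffAt ℝ 1 S.Th (τ, q) := by
  have h1 : ContDiffAt ℝ 1 S.Qf (τ, q) := S.contDiffAt_Qf h
  have hQ : 0 < (S.Qf (τ, q)).im := S.Qf_im_pos h hx
  have hH : 0 < (S.Hf (τ, S.Qf (τ, q))).im := S.Hf_im_pos hi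
  have a1 : ContDiffAt ℝ 1 (fun x : (ι → ℝ) × ℂ ↦ (x.1, S.Qf x)) (τ, q) :=
    contDiffAt_fst.prodMk h1
  have a2 : ContDiffAt ℝ 1 S.Hf (τ, S.Qf (τ, q)) := S.contDiffAt_Hf hi hQ
  have h2 : ContDiffAt ℝ 1 (fun x : (ι → ℝ) × ℂ ↦ S.Hf (x.1, S.Qf x)) (τ, q) :=
    ContDiffAt.comp (g := S.Hf) (f := fun x : (ι → ℝ) × ℂ ↦ (x.1, S.Qf x)) (τ, q) a2 a1
  have a3 : ContDiffAt ℝ 1 (fun x : (ι → ℝ) × ℂ ↦ (x.1, S.Hf (x.1, S.Qf x))) (τ, q) :=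
    contDiffAt_fst.prodMk h2
  have a4 : ContDiffAt ℝ 1 S.Tf (τ, S.Hf (τ, S.Qf (τ, q))) := S.contDiffAt_Tf hH
  have h3 : ContDiffAt ℝ 1 (fun x : (ι → ℝ) × ℂ ↦ S.Tf (x.1, S.Hf (x.1, S.Qf x))) (τ, q) :=
    ContDiffAt.comp (g := S.Tf) (f := fun x : (ι → ℝ) × ℂ ↦ (x.1, S.Hf (x.1, S.Qf x))) (τ, q) a4 a3
  exact h3.prodMk h1

end Dat

end Pool.Agent.Helper93.ETC
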