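import Mathlib
import Pool.Agent.Helper93.ETC.Theta

/-!
The image of the map `Θ` has dimension at most three.
-/

open UpperHalfPlane MatrixGroups Matrix Module

set_option linter.unusedSectionVars false

namespace Pool.Agent.Helper93.ETC

theorem dimH_image_C1 {E F : Type*} [NormedAddCommGroup E] [NormedSpace ℝ E]
    [FiniteDimensional ℝ E] [NormedAddCommGroup F] [NormedSpace ℝ F] (f : E → F) :
    dimH (f '' {x | ContDiffAt ℝ 1 f x}) ≤ finrank ℝ E := by
  calc dimH (f '' {x | ContDiffAt ℝ 1 f x}) ≤ dimH {x | ContDiffAt ℝ 1 f x} := by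
        apply dimH_image_le_of_locally_lipschitzOn
        intro x hx
        obtain ⟨K, t, ht, hl⟩ := ContDiffAt.exists_lipschitzOnWith (𝕂 := ℝ) hx
        exact ⟨K, t, mem_nhdsWithin_of_mem_nhds ht, hl⟩
    _ ≤ dimH (Set.univ : Set E) := dimH_mono (Set.subset_univ _)
    _ = finrank ℝ E := Real.dimH_univ_eq_finrank E

/-- a function with small support as a combination of few deltas -/
theorem repr_aux {ι : Type} [DecidableEq ι] [Nonempty ι] (n : ℕ) : ∀ (s : Finset ι),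
    s.card ≤ n → ∀ τ : ι → ℝ, (∀ i ∉ s, τ i = 0) →
    ∃ (x : Fin n → ι) (w : Fin n → ℝ), τ = ∑ j, w j • Pi.single (x j) (1 : ℝ) := by
  induction n with
  | zero =>
    intro s hs τ hτ
    refine ⟨Fin.elim0, Fin.elim0, ?_⟩
    have : s = ∅ := Finset.card_eq_zero.mp (Nat.le_zero.mp hs)
    ext i
    rw [hτ i (by rw [this]; simp)]
    simp
  | succ n ih =>
    intro s hs τ hτ
    rcases s.eq_empty_or_nonempty with he | ⟨i, hi⟩
    · refine ⟨fun _ ↦ Classical.arbitrary ι, fun _ ↦ 0, ?_⟩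
      ext j
      rw [hτ j (by rw [he]; simp)]
      simp
    · obtain ⟨x, w, hxw⟩ := ih (s.erase i) (by rw [Finset.card_erase_of_mem hi]; omega)
        (τ - τ i • Pi.single i (1 : ℝ)) (by
          intro j hj
          by_cases hji : j = i
          · subst hji; simp
          · have : j ∉ s := fun h ↦ hj (Finset.mem_erase.mpr ⟨hji, h⟩)
            simp [hτ j this, Pi.single_apply, hji])
      refine ⟨Fin.cons i x, Fin.cons (τ i) w, ?_⟩
      rw [Fin.sum_univ_succ]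
      simp only [Fin.cons_zero, Fin.cons_succ]
      rw [← hxw]
      abel

/-- affine parametrization of the weights supported on four labels -/
noncomputable def lin {ι : Type} [DecidableEq ι] (x : Fin 4 → ι) (a : Fin 3 → ℝ) : ι → ℝ :=
  ∑ j : Fin 3, a j • Pi.single (x j.castSucc) (1 : ℝ) +
    (1 - ∑ j : Fin 3, a j) • Pi.single (x (Fin.last 3)) (1 : ℝ)

theorem contDiff_lin {ι : Type} [Fintype ι] [DecidableEq ι] (x : Fin 4 → ι) :
    ContDiff ℝ 1 (lin x) := by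
  unfold lin
  fun_prop

theorem exists_lin {ι : Type} [Fintype ι] [DecidableEq ι] [Nonempty ι] {τ : ι → ℝ}
    (hsum : ∑ i, τ i = 1) {s : Finset ι} (hs : s.card ≤ 4) (hτ : ∀ i ∉ s, τ i = 0) :
    ∃ (x : Fin 4 → ι) (a : Fin 3 → ℝ), τ = lin x a := by
  obtain ⟨x, w, h⟩ := repr_aux 4 s hs τ hτ
  have hw : ∑ j, w j = 1 := by
    rw [← hsum, h]
    simp only [Finset.sum_apply, Pi.smul_apply, smul_eq_mul]
    rw [Finset.sum_comm]
    apply Finset.sum_congr rfl
    intro j _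
    rw [← Finset.mul_sum]
    simp
  refine ⟨x, fun j ↦ w j.castSucc, ?_⟩
  unfold lin
  rw [h, Fin.sum_univ_castSucc]
  rw [Fin.sum_univ_castSucc] at hw
  have : w (Fin.last 3) = 1 - ∑ j : Fin 3, w j.castSucc := by linarith
  rw [← this]

theorem exists_quarter {ι : Type} [Fintype ι] {τ : ι → ℝ} (hsum : ∑ i, τ i = 1)
    {s : Finset ι} (hs : s.card ≤ 4) (hτ : ∀ i ∉ s, τ i = 0) : ∃ i, 1 / 4 ≤ τ i := by
  by_contra hcon
  push Not at hcon
  have h1 : ∑ i, τ i = ∑ i ∈ s, τ i := by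
    symm
    apply Finset.sum_subset (Finset.subset_univ s)
    intro i _ hi
    exact hτ i hi
  have hne : s.Nonempty := by
    rw [Finset.nonempty_iff_ne_empty]
    rintro rfl
    rw [h1] at hsum
    simp at hsum
  have h2 : ∑ i ∈ s, τ i < ∑ i ∈ s, (1 / 4 : ℝ) := Finset.sum_lt_sum_of_nonempty hne
    fun i _ ↦ hcon i
  rw [Finset.sum_const, nsmul_eq_mul] at h2
  have h3 : (s.card : ℝ) ≤ 4 := by exact_mod_cast hs
  linarith

namespace Dat

variable {ι κ : Type} [Fintype ι] [Fintype κ] (S : Dat ι κ)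

theorem Th_const {τ : ι → ℝ} (h : kap ≤ S.W τ) (q q' : ℂ) : S.Th (τ, q) = S.Th (τ, q') := by
  have h0 : bp (kap - S.W τ) = 0 := expNegInvGlue.zero_of_nonpos (by linarith)
  have : S.Qf (τ, q) = S.Qf (τ, q') := by
    unfold Qf
    simp only [h0, zero_smul]
  unfold Th
  simp only [this]

theorem Hf_of_big {τ : ι → ℝ} (hτ : ∀ i, 0 ≤ τ i) (hsum : ∑ i, τ i = 1) {i : ι}
    (hi : 7 / 8 ≤ τ i) (y : ℂ) : S.Hf (τ, y) = act (S.g i) y := by
  classical
  have h0 : ∀ j, j ≠ i → bp (8 * τ j - 1) = 0 := by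
    intro j hj
    apply expNegInvGlue.zero_of_nonpos
    have h1 : τ i + τ j ≤ ∑ i, τ i := by
      rw [← Finset.sum_pair hj.symm]
      exact Finset.sum_le_sum_of_subset_of_nonneg (Finset.subset_univ _) fun k _ _ ↦ hτ k
    linarith
  have h1 : 0 < bp (8 * τ i - 1) := expNegInvGlue.pos_of_pos (by linarith)
  unfold Hf
  simp only
  rw [Finset.sum_eq_single i (fun j _ hj ↦ h0 j hj) (by simp),
    Finset.sum_eq_single i (fun j _ hj ↦ by rw [h0 j hj, zero_smul]) (by simp),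
    smul_smul, inv_mul_cancel₀ h1.ne', one_smul]

theorem rr_ne_zero {τ : ι → ℝ} {m : κ} (h : S.rr τ m ≠ 0) : 1 / 192 < S.E m τ := by
  by_contra hcon
  apply h
  exact expNegInvGlue.zero_of_nonpos (by linarith)

theorem Tf_cases {τ : ι → ℝ}
    (h1 : ∀ m m', 1 / 192 < S.E m τ → 1 / 192 < S.E m' τ → m = m') (y : ℂ) :
    S.Tf (τ, y) = y ∨ ∃ (m : κ) (s : ℝ), S.Tf (τ, y) = (1 - s) • y + s • prC (S.r m) y := by
  classical
  by_cases h : ∀ m, S.rr τ m = 0
  · left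
    have hp := S.den_T_pos τ
    unfold Tf
    simp only [h, zero_smul, Finset.sum_const_zero, add_zero] at hp ⊢
    rw [smul_smul, inv_mul_cancel₀ hp.ne', one_smul]
  · right
    push Not at h
    obtain ⟨m, hm⟩ := h
    have h0 : ∀ m', m' ≠ m → S.rr τ m' = 0 := by
      intro m' hm'
      by_contra hcon
      exact hm' (h1 m' m (S.rr_ne_zero hcon) (S.rr_ne_zero hm))
    have hp := S.den_T_pos τ
    rw [Finset.sum_eq_single m (fun j _ hj ↦ h0 j hj) (by simp)] at hp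
    refine ⟨m, (S.bb τ + S.rr τ m)⁻¹ * S.rr τ m, ?_⟩
    unfold Tf
    simp only
    rw [Finset.sum_eq_single m (fun j _ hj ↦ h0 j hj) (by simp),
      Finset.sum_eq_single m (fun j _ hj ↦ by rw [h0 j hj, zero_smul]) (by simp), smul_add,
      smul_smul, smul_smul]
    congr 2
    field_simp
    ring

theorem Tf_of_big {τ : ι → ℝ}
    (h1 : ∀ m m', 1 / 192 < S.E m τ → 1 / 192 < S.E m' τ → m = m') {m : κ}
    (hm : 1 / 96 ≤ S.E m τ) (y : ℂ) : S.Tf (τ, y) = prC (S.r m) y := by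
  classical
  have h0 : ∀ m', m' ≠ m → S.rr τ m' = 0 := by
    intro m' hm'
    by_contra hcon
    exact hm' (h1 m' m (S.rr_ne_zero hcon) (by linarith))
  have hb : S.bb τ = 0 := by
    unfold bb
    apply Finset.prod_eq_zero (Finset.mem_univ m)
    exact expNegInvGlue.zero_of_nonpos (by linarith)
  have hp := S.den_T_pos τ
  rw [Finset.sum_eq_single m (fun j _ hj ↦ h0 j hj) (by simp), hb, zero_add] at hp
  unfold Tf
  simp only
  rw [Finset.sum_eq_single m (fun j _ hj ↦ h0 j hj) (by simp),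
      Finset.sum_eq_single m (fun j _ hj ↦ by rw [h0 j hj, zero_smul]) (by simp), hb, zero_smul,
      zero_add, zero_add, smul_smul, inv_mul_cancel₀ hp.ne', one_smul]

/-- the set of values of `Θ` -/
def Im : Set (ℂ × ℂ) :=
  {v | ∃ (τ : ι → ℝ) (q : ℂ) (s : Finset ι), (∀ i, 0 ≤ τ i) ∧ ∑ i, τ i = 1 ∧ s.card ≤ 4 ∧
    (∀ i ∉ s, τ i = 0) ∧ 0 < q.im ∧ v = S.Th (τ, q)}

/-- the trichotomy of weights -/
def Tri : Prop := ∀ τ : ι → ℝ, ∀ s : Finset ι, (∀ i, 0 ≤ τ i) → ∑ i, τ i = 1 → s.card ≤ 4 →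
  (∀ i ∉ s, τ i = 0) → kap ≤ S.W τ ∨
    ((∀ m m', 1 / 192 < S.E m τ → 1 / 192 < S.E m' τ → m = m') ∧
      ((∃ i, 7 / 8 ≤ τ i) ∨ ∃ m, 1 / 96 ≤ S.E m τ))

/-- the first family of parametrizations -/
noncomputable def fam1 [DecidableEq ι] (x : Fin 4 → ι) (a : Fin 3 → ℝ) : ℂ × ℂ :=
  S.Th (lin x a, Complex.I)

/-- the second family of parametrizations -/
noncomputable def fam2 (i : ι) (m : κ) (p : ℝ × ℂ) : ℂ × ℂ :=
  ((1 - p.1) • act (S.g i) p.2 + p.1 • prC (S.r m) (act (S.g i) p.2), p.2)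

/-- the third family of parametrizations -/
noncomputable def fam3 (i : ι) (q : ℂ) : ℂ × ℂ := (act (S.g i) q, q)

/-- the fourth family of parametrizations -/
noncomputable def fam4 (m : κ) (p : ℝ × ℂ) : ℂ × ℂ := (crv (S.r m) p.1, p.2)

theorem Im_subset [DecidableEq ι] (hT : S.Tri) : S.Im ⊆
    (⋃ x : Fin 4 → ι, S.fam1 x '' {a | ContDiffAt ℝ 1 (S.fam1 x) a}) ∪
    ((⋃ i : ι × κ, S.fam2 i.1 i.2 '' {a | ContDiffAt ℝ 1 (S.fam2 i.1 i.2) a}) ∪
    ((⋃ i : ι, S.fam3 i '' {a | ContDiffAt ℝ 1 (S.fam3 i) a}) ∪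
    (⋃ m : κ, S.fam4 m '' {a | ContDiffAt ℝ 1 (S.fam4 m) a}))) := by
  rintro v ⟨τ, q, s, h0, hsum, hs, hτ, hq, rfl⟩
  obtain ⟨i0, hi0⟩ := exists_quarter hsum hs hτ
  have : Nonempty ι := ⟨i0⟩
  have hQ : 0 < (S.Qf (τ, q)).im := S.Qf_im_pos h0 hq
  rcases hT τ s h0 hsum hs hτ with hW | ⟨hone, hbig | hbig⟩
  · left
    obtain ⟨x, a, hxa⟩ := exists_lin hsum hs hτ
    rw [Set.mem_iUnion]
    refine ⟨x, a, ?_, ?_⟩
    · have h1 : ContDiffAt ℝ 1 S.Th (lin x a, Complex.I) := by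
        rw [← hxa]
        exact S.contDiffAt_Th h0 hi0 (by simp)
      have h2 : ContDiffAt ℝ 1 (fun a ↦ (lin x a, Complex.I)) a :=
        (contDiff_lin x).contDiffAt.prodMk contDiffAt_const
      exact ContDiffAt.comp (g := S.Th) (f := fun a ↦ (lin x a, Complex.I)) a h1 h2
    · change S.Th (lin x a, Complex.I) = _
      rw [← hxa]
      exact S.Th_const hW _ _
  · right
    obtain ⟨i, hi⟩ := hbig
    have hH : S.Hf (τ, S.Qf (τ, q)) = act (S.g i) (S.Qf (τ, q)) := S.Hf_of_big h0 hsum hi _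
    have a1 := contDiffAt_act (S.g i) hQ
    rcases S.Tf_cases hone (S.Hf (τ, S.Qf (τ, q))) with h | ⟨m, t, h⟩
    · right; left
      rw [Set.mem_iUnion]
      refine ⟨i, S.Qf (τ, q), a1.prodMk contDiffAt_id, ?_⟩
      change (act (S.g i) (S.Qf (τ, q)), S.Qf (τ, q)) = (S.Tf (τ, S.Hf (τ, S.Qf (τ, q))), _)
      rw [h, hH]
    · left
      rw [Set.mem_iUnion]
      refine ⟨(i, m), (t, S.Qf (τ, q)), ?_, ?_⟩
      · have h3 : ContDiffAt ℝ 1 (fun p : ℝ × ℂ ↦ act (S.g i) p.2) (t, S.Qf (τ, q)) :=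
          ContDiffAt.comp (g := act (S.g i)) (f := fun p : ℝ × ℂ ↦ p.2) _ a1 contDiffAt_snd
        have h4 : ContDiffAt ℝ 1 (fun p : ℝ × ℂ ↦ prC (S.r m) (act (S.g i) p.2))
            (t, S.Qf (τ, q)) :=
          ContDiffAt.comp (g := prC (S.r m)) (f := fun p : ℝ × ℂ ↦ act (S.g i) p.2) _
            (contDiffAt_prC (S.r m) (act_im_pos _ _)) h3
        have h5 : ContDiffAt ℝ 1 (fun p : ℝ × ℂ ↦ (1 - p.1) • act (S.g i) p.2 +
            p.1 • prC (S.r m) (act (S.g i) p.2)) (t, S.Qf (τ, q)) :=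
          ((contDiffAt_const.sub contDiffAt_fst).smul h3).add (contDiffAt_fst.smul h4)
        exact h5.prodMk contDiffAt_snd
      · change ((1 - t) • act (S.g i) (S.Qf (τ, q)) + t • prC (S.r m) (act (S.g i) (S.Qf (τ, q))),
          S.Qf (τ, q)) = (S.Tf (τ, S.Hf (τ, S.Qf (τ, q))), _)
        rw [h, hH]
  · right; right; right
    obtain ⟨m, hm⟩ := hbig
    rw [Set.mem_iUnion]
    have h := S.Tf_of_big hone hm (S.Hf (τ, S.Qf (τ, q)))
    refine ⟨m, (‖act (S.r m) (S.Hf (τ, S.Qf (τ, q)))‖, S.Qf (τ, q)), ?_, ?_⟩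
    · have h1 : ContDiffAt ℝ 1 (crv (S.r m)) ‖act (S.r m) (S.Hf (τ, S.Qf (τ, q)))‖ :=
        contDiffAt_crv _ (norm_pos_iff.mpr (act_ne_zero _ _))
      have h2 : ContDiffAt ℝ 1 (fun p : ℝ × ℂ ↦ crv (S.r m) p.1)
          (‖act (S.r m) (S.Hf (τ, S.Qf (τ, q)))‖, S.Qf (τ, q)) :=
        ContDiffAt.comp (g := crv (S.r m)) (f := fun p : ℝ × ℂ ↦ p.1) _ h1 contDiffAt_fst
      exact h2.prodMk contDiffAt_snd
    · change (prC (S.r m) (S.Hf (τ, S.Qf (τ, q))), S.Qf (τ, q))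
        = (S.Tf (τ, S.Hf (τ, S.Qf (τ, q))), _)
      rw [h]

theorem dimH_Im (hT : S.Tri) : dimH S.Im ≤ 3 := by
  classical
  refine (dimH_mono (S.Im_subset hT)).trans ?_
  rw [dimH_union, dimH_union, dimH_union, dimH_iUnion, dimH_iUnion, dimH_iUnion, dimH_iUnion]
  refine max_le ?_ (max_le ?_ (max_le ?_ ?_))
  · refine iSup_le fun x ↦ (dimH_image_C1 _).trans ?_
    simp
  · refine iSup_le fun x ↦ (dimH_image_C1 _).trans ?_
    rw [Module.finrank_prod, Complex.finrank_real_complex, Module.finrank_self]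
    norm_num
  · refine iSup_le fun x ↦ (dimH_image_C1 _).trans ?_
    rw [Complex.finrank_real_complex]
    norm_num
  · refine iSup_le fun x ↦ (dimH_image_C1 _).trans ?_
    rw [Module.finrank_prod, Complex.finrank_real_complex, Module.finrank_self]
    norm_num

theorem dense_Im_compl (hT : S.Tri) : Dense S.Imᶜ := by
  apply dense_compl_of_dimH_lt_finrank
  refine (S.dimH_Im hT).trans_lt ?_
  rw [Module.finrank_prod, Complex.finrank_real_complex]
  norm_num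

end Dat

end Pool.Agent.Helper93.ETC
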