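import Mathlib
import Pool.Agent.Helper93.ETC.Dim

/-!
The data attached to a finite set of labels, and the trichotomy of weights.
-/

open UpperHalfPlane MatrixGroups Matrix

namespace Pool.Agent.Helper93.ETC

open Classical in
/-- the centralizers of the quotients of two distinct elements of `L` -/
noncomputable def cents {G : Type} [Group G] (L : Finset G) : Finset (Subgroup G) :=
  (L.offDiag).image fun x ↦ Subgroup.centralizer {x.2 * x.1⁻¹}

theorem cents_spec {G : Type} [Group G] {L : Finset G} {M : Subgroup G} (h : M ∈ cents L) :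
    ∃ γ : G, γ ≠ 1 ∧ M = Subgroup.centralizer {γ} := by
  classical
  unfold cents at h
  rw [Finset.mem_image] at h
  obtain ⟨⟨u, v⟩, huv, rfl⟩ := h
  rw [Finset.mem_offDiag] at huv
  refine ⟨v * u⁻¹, ?_, rfl⟩
  intro h1
  exact huv.2.2 (mul_inv_eq_one.mp h1).symm

open Classical in
/-- the data attached to a finite set `L` of labels, base points and projections -/
noncomputable def mkDat {Γ : Subgroup PGL(2, ℝ)} (L : Finset Γ) (z : Γ → Γ → Γ → ℍ)
    (r : Subgroup Γ → PGL(2, ℝ)) : Dat L (cents L) where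
  g i := (i : Γ)
  nd := Finset.univ.filter fun x : L × L × L ↦
    ¬ Commute ((x.2.1 : Γ) * (x.1 : Γ)⁻¹) ((x.2.2 : Γ) * (x.1 : Γ)⁻¹)
  zz x := z x.1 x.2.1 x.2.2
  prs m := Finset.univ.filter fun x : L × L ↦ x.1 ≠ x.2 ∧ (x.2 : Γ) * (x.1 : Γ)⁻¹ ∈ m.1
  r m := r m.1

theorem mem_cent_iff {G : Type} [Group G] {x γ : G} :
    x ∈ Subgroup.centralizer {γ} ↔ Commute x γ := by
  rw [Subgroup.mem_centralizer_singleton_iff]
  rfl

theorem cents_unique {G : Type} [Group G]
    (hct : ∀ γ γ' : G, γ ≠ 1 → γ' ≠ 1 → Commute γ γ' → ∀ x, Commute x γ ↔ Commute x γ')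
    {L : Finset G} {M : Subgroup G} (h : M ∈ cents L) {δ : G} (hδ : δ ≠ 1) (hm : δ ∈ M) :
    M = Subgroup.centralizer {δ} := by
  obtain ⟨γ, hγ, rfl⟩ := cents_spec h
  rw [mem_cent_iff] at hm
  ext x
  rw [mem_cent_iff, mem_cent_iff]
  exact hct γ δ hγ hδ hm.symm x

theorem tri_mkDat {Γ : Subgroup PGL(2, ℝ)}
    (hct : ∀ γ γ' : Γ, γ ≠ 1 → γ' ≠ 1 → Commute γ γ' → ∀ x, Commute x γ ↔ Commute x γ')
    (L : Finset Γ) (z : Γ → Γ → Γ → ℍ) (r : Subgroup Γ → PGL(2, ℝ)) : (mkDat L z r).Tri := by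
  classical
  set S := mkDat L z r with hS
  intro τ s h0 hsum hs hτ
  by_cases hW : Dat.kap ≤ S.W τ
  · left; exact hW
  right
  push Not at hW
  have hle1 : ∀ i, τ i ≤ 1 := fun i ↦ by
    rw [← hsum]
    exact Finset.single_le_sum (fun j _ ↦ h0 j) (Finset.mem_univ i)
  have hne : ∀ x : L × L, x.1 ≠ x.2 → (x.2 : Γ) * (x.1 : Γ)⁻¹ ≠ 1 := by
    intro x hx h1
    exact hx (Subtype.ext (mul_inv_eq_one.mp h1).symm)
  have hE : ∀ m, 1 / 192 < S.E m τ → ∃ x ∈ S.prs m, 1 / 3072 ≤ τ x.1 ∧ 1 / 3072 ≤ τ x.2 := by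
    intro m hm
    by_contra hcon
    push Not at hcon
    have hsmall : ∀ x ∈ S.prs m, τ x.1 * τ x.2 ≤ 1 / 3072 := by
      intro x hx
      by_contra hc
      push Not at hc
      have a1 := hle1 x.1
      have a2 := hle1 x.2
      have a3 := h0 x.1
      have a4 := h0 x.2
      have b1 : 1 / 3072 ≤ τ x.1 := by nlinarith
      have b2 := hcon x hx b1
      nlinarith
    have h1 : S.E m τ ≤ ∑ x ∈ (S.prs m).filter (fun x ↦ x ∈ s ×ˢ s), τ x.1 * τ x.2 := by
      unfold Dat.E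
      rw [Finset.sum_filter]
      apply Finset.sum_le_sum
      intro x hx
      split_ifs with h
      · exact le_rfl
      · rw [Finset.mem_product, not_and_or] at h
        rcases h with h | h
        · rw [hτ _ h, zero_mul]
        · rw [hτ _ h, mul_zero]
    have h2 : ∑ x ∈ (S.prs m).filter (fun x ↦ x ∈ s ×ˢ s), τ x.1 * τ x.2
        ≤ ((S.prs m).filter (fun x ↦ x ∈ s ×ˢ s)).card • (1 / 3072 : ℝ) := by
      apply Finset.sum_le_card_nsmul
      intro x hx
      exact hsmall x (Finset.mem_filter.mp hx).1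
    have h3 : ((S.prs m).filter (fun x ↦ x ∈ s ×ˢ s)).card ≤ 16 := by
      calc ((S.prs m).filter (fun x ↦ x ∈ s ×ˢ s)).card ≤ (s ×ˢ s).card := by
            apply Finset.card_le_card
            intro x hx
            exact (Finset.mem_filter.mp hx).2
        _ = s.card * s.card := Finset.card_product _ _
        _ ≤ 4 * 4 := Nat.mul_le_mul hs hs
    rw [nsmul_eq_mul] at h2
    have h4 : (((S.prs m).filter (fun x ↦ x ∈ s ×ˢ s)).card : ℝ) ≤ 16 := by exact_mod_cast h3
    linarith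
  have htri : ∀ u v w : L, 1 / 3072 ≤ τ u → 1 / 3072 ≤ τ v → 1 / 3072 ≤ τ w →
      Commute ((v : Γ) * (u : Γ)⁻¹) ((w : Γ) * (u : Γ)⁻¹) := by
    intro u v w hu hv hw
    by_contra hcon
    have hmem : (u, v, w) ∈ S.nd := by
      rw [hS]
      simp only [mkDat, Finset.mem_filter, Finset.mem_univ, true_and]
      exact hcon
    have h1 : Dat.tri τ (u, v, w) ≤ S.W τ :=
      Finset.single_le_sum (f := fun x ↦ Dat.tri τ x) (fun x _ ↦ Dat.tri_nonneg h0 x) hmem
    have h2 : (1 / 3072 : ℝ) ^ 3 ≤ τ u * τ v * τ w := by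
      have : (1 / 3072 : ℝ) ^ 3 = 1 / 3072 * (1 / 3072) * (1 / 3072) := by ring
      rw [this]
      gcongr
    have h3 : Dat.kap ≤ Dat.tri τ (u, v, w) := h2
    linarith
  refine ⟨?_, ?_⟩
  · intro m m' hm hm'
    obtain ⟨⟨u, v⟩, hx, hu, hv⟩ := hE m hm
    obtain ⟨⟨u', v'⟩, hx', hu', hv'⟩ := hE m' hm'
    simp only at hu hv hu' hv'
    rw [hS] at hx hx'
    simp only [mkDat, Finset.mem_filter, Finset.mem_univ, true_and] at hx hx'
    have c1 := htri u v u' hu hv hu'
    have c2 := htri u v v' hu hv hv'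
    have c3 : Commute ((v' : Γ) * (u' : Γ)⁻¹) ((v : Γ) * (u : Γ)⁻¹) := by
      have e : (v' : Γ) * (u' : Γ)⁻¹ = ((v' : Γ) * (u : Γ)⁻¹) * ((u' : Γ) * (u : Γ)⁻¹)⁻¹ := by group
      rw [e]
      exact (c2.symm.mul_left c1.symm.inv_left)
    have e1 := cents_unique hct m.2 (hne (u, v) hx.1) hx.2
    have e2 := cents_unique hct m'.2 (hne (u', v') hx'.1) hx'.2
    have hmem : (v' : Γ) * (u' : Γ)⁻¹ ∈ m.1 := by
      rw [e1, mem_cent_iff]; exact c3
    have e3 := cents_unique hct m.2 (hne (u', v') hx'.1) hmem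
    exact Subtype.ext (e3.trans e2.symm)
  · by_contra hcon
    push Not at hcon
    obtain ⟨hc1, hc2⟩ := hcon
    obtain ⟨u, hu⟩ := exists_quarter hsum hs hτ
    have hus : u ∈ s := by
      by_contra h
      rw [hτ u h] at hu
      norm_num at hu
    have h1 : ∑ i ∈ s, τ i = 1 := by
      rw [← hsum]
      apply Finset.sum_subset (Finset.subset_univ s)
      intro i _ hi
      exact hτ i hi
    have h2 : ∑ i ∈ s.erase u, τ i = 1 - τ u := by
      rw [← Finset.add_sum_erase s τ hus] at h1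
      linarith
    have h3 : ∃ v ∈ s.erase u, 1 / 24 ≤ τ v := by
      by_contra hc
      push Not at hc
      have h4 : ∑ i ∈ s.erase u, τ i ≤ (s.erase u).card • (1 / 24 : ℝ) :=
        Finset.sum_le_card_nsmul _ _ _ fun i hi ↦ (hc i hi).le
      have h5 : (s.erase u).card ≤ 3 := by
        rw [Finset.card_erase_of_mem hus]; omega
      have h6 : ((s.erase u).card : ℝ) ≤ 3 := by exact_mod_cast h5
      rw [nsmul_eq_mul] at h4
      have := hc1 u
      linarith
    obtain ⟨v, hv, hv'⟩ := h3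
    have huv : u ≠ v := (Finset.ne_of_mem_erase hv).symm
    set m : cents L := ⟨Subgroup.centralizer {(v : Γ) * (u : Γ)⁻¹}, by
      unfold cents
      rw [Finset.mem_image]
      refine ⟨((u : Γ), (v : Γ)), ?_, rfl⟩
      rw [Finset.mem_offDiag]
      exact ⟨u.2, v.2, fun h ↦ huv (Subtype.ext h)⟩⟩ with hm
    have hmem : (u, v) ∈ S.prs m := by
      rw [hS]
      simp only [mkDat, Finset.mem_filter, Finset.mem_univ, true_and]
      refine ⟨huv, ?_⟩
      rw [hm]
      exact mem_cent_iff.mpr (Commute.refl _)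
    have h7 : τ u * τ v ≤ S.E m τ :=
      Finset.single_le_sum (f := fun x : L × L ↦ τ x.1 * τ x.2)
        (fun x _ ↦ mul_nonneg (h0 _) (h0 _)) hmem
    have h8 := hc2 m
    nlinarith

end Pool.Agent.Helper93.ETC
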