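import Mathlib
import Pool.Agent.Helper93.ETC.Tri
import Pool.Agent.Helper93.ETC.Final

/-!
Core of the lower bound: there is no partition of unity of `ℍ × ℍ` of order four whose members
are labelled by elements of a cocompact fixed point free group and are supported near the graphs
of their labels.
-/

open UpperHalfPlane MatrixGroups Matrix

namespace Pool.Agent.Helper93.ETC

theorem core (Γ : Subgroup PGL(2, ℝ)) (hfree : ∀ γ ∈ Γ, ∀ z : ℍ, γ • z = z → γ = 1)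
    [ProperlyDiscontinuousSMul Γ ℍ]
    {D : ℝ} (hco : ∀ z : ℍ, ∃ γ : Γ, dist I (γ • z : ℍ) ≤ D)
    (t : Γ → ℍ × ℍ → ℝ) (hcont : ∀ u, Continuous (t u)) (hnn : ∀ u P, 0 ≤ t u P)
    (hfin : ∀ P, ∃ S : Finset Γ, S.card ≤ 4 ∧ (∀ u ∉ S, t u P = 0) ∧ ∑ u ∈ S, t u P = 1)
    (R₀ : ℝ) (hR₀ : ∀ u P, t u P ≠ 0 → dist P.1 (u • P.2) ≤ R₀) : False := by
  classical
  -- a nonnegative bound
  obtain ⟨R, hRnn, hR⟩ : ∃ R : ℝ, 0 ≤ R ∧ ∀ u P, t u P ≠ 0 → dist P.1 (u • P.2) ≤ R :=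
    ⟨max R₀ 0, le_max_right _ _, fun u P h ↦ (hR₀ u P h).trans (le_max_left _ _)⟩
  have hfm := fun R : ℝ ↦ fin_moving (Γ := Γ) R
  obtain ⟨ε, hε, hdisp⟩ := exists_disp hfree hfm hco
  have hct : ∀ γ γ' : Γ, γ ≠ 1 → γ' ≠ 1 → Commute γ γ' → ∀ x, Commute x γ ↔ Commute x γ' :=
    fun γ γ' h h' hc x ↦ cent_eq hε hdisp h h' hc x
  obtain ⟨B, hB⟩ := nd_bound hε hdisp hfm hco (2 * R)
  -- two labels at a point
  have hlab : ∀ (u v : Γ) (P : ℍ × ℍ), t u P ≠ 0 → t v P ≠ 0 →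
      dist (u • P.2) ((v * u⁻¹) • (u • P.2)) ≤ 2 * R ∧
      dist P.1 ((v * u⁻¹) • P.1) ≤ 2 * R := by
    intro u v P hu hv
    have h1 := hR u P hu
    have h2 := hR v P hv
    have e : (v * u⁻¹) • (u • P.2) = v • P.2 := by
      rw [smul_smul]; congr 1; group
    constructor
    · rw [e]
      have := dist_triangle_left (u • P.2) (v • P.2) P.1
      linarith
    · have h3 := dist_triangle P.1 (v • P.2) ((v * u⁻¹) • P.1)
      have h4 : dist (v • P.2) ((v * u⁻¹) • P.1) = dist (u • P.2) P.1 := by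
        rw [← e]
        exact dist_smul_smul ((v * u⁻¹ : Γ) : PGL(2, ℝ)) _ _
      rw [h4, dist_comm (u • P.2) P.1] at h3
      linarith
  -- base points
  set z : Γ → Γ → Γ → ℍ := fun u v w ↦
    if h : ∃ P, t u P ≠ 0 ∧ t v P ≠ 0 ∧ t w P ≠ 0 then h.choose.2 else I with hz
  have hzdist : ∀ (u v w : Γ) (P : ℍ × ℍ), ¬ Commute (v * u⁻¹) (w * u⁻¹) →
      t u P ≠ 0 → t v P ≠ 0 → t w P ≠ 0 → dist (z u v w) P.2 ≤ B := by
    intro u v w P hnc hu hv hw
    have hex : ∃ P, t u P ≠ 0 ∧ t v P ≠ 0 ∧ t w P ≠ 0 := ⟨P, hu, hv, hw⟩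
    have e : z u v w = hex.choose.2 := by
      rw [hz]; simp only [dif_pos hex]
    obtain ⟨hu', hv', hw'⟩ := hex.choose_spec
    rw [e]
    have h1 := hB (v * u⁻¹) (w * u⁻¹) (u • hex.choose.2) (u • P.2) hnc
      (hlab u v _ hu' hv').1 (hlab u w _ hu' hw').1 (hlab u v P hu hv).1 (hlab u w P hu hw).1
    have h2 : dist (u • hex.choose.2) (u • P.2) = dist hex.choose.2 P.2 :=
      dist_smul_smul (u : PGL(2, ℝ)) _ _
    rwa [h2] at h1
  set D1 := max B 0 with hD1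
  have hD1nn : 0 ≤ D1 := le_max_right _ _
  -- axes
  have hr : ∀ M : Subgroup Γ, ∃ r : PGL(2, ℝ), (∃ γ : Γ, γ ≠ 1 ∧ M = Subgroup.centralizer {γ}) →
      ∀ δ ∈ M, ∃ b : ℝˣ, (δ : PGL(2, ℝ)) = r⁻¹ * Dg b * r := by
    intro M
    by_cases h : ∃ γ : Γ, γ ≠ 1 ∧ M = Subgroup.centralizer {γ}
    · obtain ⟨γ, hγ, rfl⟩ := h
      obtain ⟨r, hr⟩ := cent_form hε hdisp hγ
      exact ⟨r, fun _ δ hδ ↦ hr δ (mem_cent_iff.mp hδ)⟩
    · exact ⟨1, fun h' ↦ absurd h' h⟩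
  choose r hr using hr
  set C := projBound ε (2 * R + 2 * (R + D1)) with hC
  have hCnn : 0 ≤ C := Real.sqrt_nonneg _
  set Δ := R + D1 + C with hΔ
  have hΔnn : 0 ≤ Δ := by positivity
  obtain ⟨ρ, hρ⟩ := final hΔnn
  -- the labels that matter
  set L : Finset Γ := (hfm (R + 2 * ρ)).toFinset with hL
  have hLmem : ∀ P ∈ Metric.closedBall (I : ℍ) ρ ×ˢ Metric.closedBall (I : ℍ) ρ, ∀ u : Γ,
      t u P ≠ 0 → u ∈ L := by
    intro P hP u hu
    rw [hL, Set.Finite.mem_toFinset, Set.mem_ofPred_eq]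
    have h1 := hR u P hu
    have h2 : dist P.1 I ≤ ρ := hP.1
    have h3 : dist P.2 I ≤ ρ := hP.2
    have h4 := dist_triangle4 I P.1 (u • P.2) (u • I : ℍ)
    have h5 : dist (u • P.2) (u • I : ℍ) = dist P.2 I := dist_smul_smul (u : PGL(2, ℝ)) _ _
    rw [h5, dist_comm I P.1] at h4
    linarith
  set S := mkDat L z r with hS
  have hTri : S.Tri := tri_mkDat hct L z r
  set F : ℍ × ℍ → ℂ × ℂ := fun P ↦ S.Th (fun i : L ↦ t i P, (P.2 : ℂ)) with hF
  -- the weights at a point of the big ball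
  have hwt : ∀ P ∈ Metric.closedBall (I : ℍ) ρ ×ˢ Metric.closedBall (I : ℍ) ρ,
      ∑ i : L, t i P = 1 ∧ ∃ s : Finset L, s.card ≤ 4 ∧ ∀ i ∉ s, t i P = 0 := by
    intro P hP
    obtain ⟨T, hT1, hT2, hT3⟩ := hfin P
    constructor
    · rw [← hT3]
      have e1 : ∑ i : L, t i P = ∑ u ∈ L, t u P := Finset.sum_coe_sort L (fun u ↦ t u P)
      have e2 : ∑ u ∈ L, t u P = ∑ u ∈ L ∪ T, t u P := by
        apply Finset.sum_subset Finset.subset_union_left
        intro u _ hu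
        by_contra h
        exact hu (hLmem P hP u h)
      have e3 : ∑ u ∈ T, t u P = ∑ u ∈ L ∪ T, t u P := by
        apply Finset.sum_subset Finset.subset_union_right
        intro u _ hu
        exact hT2 u hu
      rw [e1, e2, e3]
    · refine ⟨Finset.univ.filter fun i : L ↦ (i : Γ) ∈ T, ?_, ?_⟩
      · refine le_trans ?_ hT1
        apply Finset.card_le_card_of_injOn (fun i : L ↦ (i : Γ))
        · intro i hi
          simpa using hi
        · intro i _ j _ h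
          exact Subtype.ext h
      · intro i hi
        apply hT2
        simpa using hi
  have hquart : ∀ P ∈ Metric.closedBall (I : ℍ) ρ ×ˢ Metric.closedBall (I : ℍ) ρ,
      ∃ i : L, 1 / 4 ≤ t i P := by
    intro P hP
    obtain ⟨h1, s, h2, h3⟩ := hwt P hP
    exact exists_quarter h1 h2 h3
  have hFcont : ContinuousOn F
      (Metric.closedBall (I : ℍ) ρ ×ˢ Metric.closedBall (I : ℍ) ρ) := by
    intro P hP
    obtain ⟨i, hi⟩ := hquart P hP
    have h1 : ContDiffAt ℝ 1 S.Th (fun i : L ↦ t i P, (P.2 : ℂ)) :=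
      S.contDiffAt_Th (fun i ↦ hnn i P) hi P.2.im_pos
    have h2 : ContinuousAt (fun P : ℍ × ℍ ↦ ((fun i : L ↦ t i P, (P.2 : ℂ)) : (L → ℝ) × ℂ)) P := by
      apply Continuous.continuousAt
      apply Continuous.prodMk
      · exact continuous_pi fun i ↦ hcont i
      · exact UpperHalfPlane.continuous_coe.comp continuous_snd
    exact (ContinuousAt.comp (g := S.Th)
      (f := fun P : ℍ × ℍ ↦ ((fun i : L ↦ t i P, (P.2 : ℂ)) : (L → ℝ) × ℂ))
      h1.continuousAt h2).continuousWithinAt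
  have hFdist : ∀ P ∈ Metric.closedBall (I : ℍ) ρ ×ˢ Metric.closedBall (I : ℍ) ρ,
      (F P).1 ∈ hb P.1 Δ ∧ (F P).2 ∈ hb P.2 Δ := by
    intro P hP
    obtain ⟨i₀, hi₀⟩ := hquart P hP
    set τ : L → ℝ := fun i ↦ t i P with hτ
    have hτnn : ∀ i, 0 ≤ τ i := fun i ↦ hnn i P
    -- second coordinate
    have hQ : S.Qf (τ, (P.2 : ℂ)) ∈ hb P.2 D1 := by
      apply S.Qf_mem (convex_hb _ _) hτnn
      · rw [coe_mem_hb, dist_self]; exact hD1nn
      · intro x hx hne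
        rw [coe_mem_hb]
        rw [hS] at hx
        simp only [mkDat, Finset.mem_filter, Finset.mem_univ, true_and] at hx
        have h1 : t x.1 P ≠ 0 := fun h ↦ hne (by simp [Dat.tri, hτ, h])
        have h2 : t x.2.1 P ≠ 0 := fun h ↦ hne (by simp [Dat.tri, hτ, h])
        have h3 : t x.2.2 P ≠ 0 := fun h ↦ hne (by simp [Dat.tri, hτ, h])
        exact (hzdist _ _ _ P hx h1 h2 h3).trans (le_max_left _ _)
    obtain ⟨q', hq', eq'⟩ := hQ
    rw [Metric.mem_closedBall] at hq'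
    -- the average of the translates
    have hH : S.Hf (τ, S.Qf (τ, (P.2 : ℂ))) ∈ hb P.1 (R + D1) := by
      apply S.Hf_mem (convex_hb _ _) hi₀
      intro j hj
      rw [← eq', act_coe, coe_mem_hb]
      have h1 := hR j P hj
      have e1 : (S.g j • q' : ℍ) = (j : Γ) • q' := rfl
      have h2 := dist_triangle ((j : Γ) • q') ((j : Γ) • P.2) P.1
      have h3 : dist ((j : Γ) • q') ((j : Γ) • P.2) = dist q' P.2 :=
        dist_smul_smul ((j : Γ) : PGL(2, ℝ)) _ _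
      rw [e1]
      rw [h3, dist_comm ((j : Γ) • P.2) P.1] at h2
      linarith
    obtain ⟨w, hw, ew⟩ := hH
    rw [Metric.mem_closedBall] at hw
    have hT : S.Tf (τ, S.Hf (τ, S.Qf (τ, (P.2 : ℂ)))) ∈ hb P.1 Δ := by
      apply S.Tf_mem (convex_hb _ _)
      · rw [← ew, coe_mem_hb]
        exact hw.trans (by rw [hΔ]; linarith)
      · rintro m ⟨x, hx, hx1, hx2⟩
        rw [← ew, prC_coe, coe_mem_hb]
        rw [hS] at hx
        simp only [mkDat, Finset.mem_filter, Finset.mem_univ, true_and] at hx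
        have hne : (x.2 : Γ) * (x.1 : Γ)⁻¹ ≠ 1 := fun h ↦
          hx.1 (Subtype.ext (mul_inv_eq_one.mp h).symm)
        obtain ⟨b, hb⟩ := hr m.1 (cents_spec m.2) _ hx.2
        have h1 := (hlab x.1 x.2 P hx1 hx2).2
        have h2 : dist w (((x.2 : Γ) * (x.1 : Γ)⁻¹) • w) ≤ 2 * R + 2 * (R + D1) := by
          have h3 := dist_triangle4 w P.1 (((x.2 : Γ) * (x.1 : Γ)⁻¹) • P.1)
            (((x.2 : Γ) * (x.1 : Γ)⁻¹) • w)
          have h4 : dist (((x.2 : Γ) * (x.1 : Γ)⁻¹) • P.1) (((x.2 : Γ) * (x.1 : Γ)⁻¹) • w)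
              = dist P.1 w := dist_smul_smul (((x.2 : Γ) * (x.1 : Γ)⁻¹ : Γ) : PGL(2, ℝ)) _ _
          rw [h4, dist_comm P.1 w] at h3
          linarith
        have h5 : dist w (proj (r m.1) w) ≤ C :=
          dist_proj_le hε hb (hdisp _ hne) h2
        have h6 := dist_triangle_left (proj (r m.1) w) P.1 w
        have e1 : proj (S.r m) w = proj (r m.1) w := rfl
        rw [e1]
        linarith
    refine ⟨hT, ?_⟩
    change S.Qf (τ, (P.2 : ℂ)) ∈ hb P.2 Δ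
    rw [← eq', coe_mem_hb]
    exact hq'.trans (by rw [hΔ]; linarith)
  have hFIm : ∀ P ∈ Metric.closedBall (I : ℍ) ρ ×ˢ Metric.closedBall (I : ℍ) ρ, F P ∈ S.Im := by
    intro P hP
    obtain ⟨h1, s, h2, h3⟩ := hwt P hP
    exact ⟨_, _, s, fun i ↦ hnn i P, h1, h2, h3, P.2.im_pos, rfl⟩
  -- a point off the image
  have hopen : IsOpen (((↑) : ℍ → ℂ) '' Metric.ball (I : ℍ) 1) := by
    rw [image_coe_ball]; exact Metric.isOpen_ball
  have hne : ((((↑) : ℍ → ℂ) '' Metric.ball (I : ℍ) 1) ×ˢ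
      (((↑) : ℍ → ℂ) '' Metric.ball (I : ℍ) 1)).Nonempty :=
    ⟨((I : ℍ), (I : ℍ)), ⟨I, by simp, rfl⟩, ⟨I, by simp, rfl⟩⟩
  obtain ⟨P0, hP0, hP0'⟩ := (S.dense_Im_compl hTri).exists_mem_open (hopen.prod hopen) hne
  have hsub : ((↑) : ℍ → ℂ) '' Metric.ball (I : ℍ) 1 ⊆ hb I 1 :=
    Set.image_mono Metric.ball_subset_closedBall
  obtain ⟨P, hP, hFP⟩ := hρ F hFcont hFdist P0 (hsub hP0'.1) (hsub hP0'.2)
  exact hP0 (hFP ▸ hFIm P hP)

end Pool.Agent.Helper93.ETC
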