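import Mathlib
import Pool.Agent.Helper93.ETC.Core
import Pool.Agent.Helper47.ETCCover

/-!
The lower bound for the effective topological complexity of closed hyperbolic surfaces.
-/

open UpperHalfPlane MatrixGroups Matrix Topology

namespace Pool.Agent.Helper93.ETC

theorem isOpenMap_pi {Γ : Subgroup PGL(2, ℝ)} {G : Type} [Group G] {φ : Γ →* G}
    {X : Type} [TopologicalSpace X] {π : ℍ → X} (hπ : IsQuotientMap π)
    (hfib : ∀ z w : ℍ, π z = π w ↔ ∃ γ : Γ, φ γ = 1 ∧ γ • z = w) : IsOpenMap π := by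
  intro U hU
  rw [← hπ.isOpen_preimage]
  have : π ⁻¹' (π '' U) = ⋃ γ : {γ : Γ // φ γ = 1}, (fun z : ℍ ↦ (γ : Γ) • z) ⁻¹' U := by
    ext z
    simp only [Set.mem_preimage, Set.mem_image, Set.mem_iUnion]
    constructor
    · rintro ⟨w, hw, h⟩
      obtain ⟨γ, h1, h2⟩ := (hfib z w).mp h.symm
      exact ⟨⟨γ, h1⟩, by simpa [h2] using hw⟩
    · rintro ⟨⟨γ, h1⟩, h2⟩
      exact ⟨γ • z, h2, ((hfib z (γ • z)).mpr ⟨γ, h1, rfl⟩).symm⟩
  rw [this]
  exact isOpen_iUnion fun γ ↦ hU.preimage (continuous_smul ((γ : Γ) : PGL(2, ℝ)))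

theorem exists_cocompact {Γ : Subgroup PGL(2, ℝ)} {G : Type} [Group G] {φ : Γ →* G}
    {X : Type} [TopologicalSpace X] [CompactSpace X] {π : ℍ → X} (hπ : IsQuotientMap π)
    (hfib : ∀ z w : ℍ, π z = π w ↔ ∃ γ : Γ, φ γ = 1 ∧ γ • z = w) :
    ∃ D : ℝ, ∀ z : ℍ, ∃ γ : Γ, dist I (γ • z : ℍ) ≤ D := by
  have hopen := isOpenMap_pi hπ hfib
  obtain ⟨n, hn⟩ := isCompact_univ.elim_directed_cover
    (fun n : ℕ ↦ π '' Metric.ball (I : ℍ) n) (fun n ↦ hopen _ Metric.isOpen_ball) (by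
      intro x _
      obtain ⟨z, rfl⟩ := hπ.surjective x
      obtain ⟨n, hn⟩ := exists_nat_gt (dist z I)
      exact Set.mem_iUnion.mpr ⟨n, z, hn, rfl⟩)
    (directed_of_isDirected_le fun m n h ↦ Set.image_mono (Metric.ball_subset_ball
      (by exact_mod_cast h)))
  refine ⟨n, fun z ↦ ?_⟩
  obtain ⟨w, hw, h⟩ := hn (Set.mem_univ (π z))
  obtain ⟨γ, _, h2⟩ := (hfib z w).mp h.symm
  refine ⟨γ, ?_⟩
  rw [h2, dist_comm]
  exact (Metric.mem_ball.mp hw).le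

/-- The effective topological complexity of a free action of a finite group on a closed
hyperbolic surface is at least four. -/
theorem lower (Γ : Subgroup PGL(2, ℝ)) (hfree : ∀ γ ∈ Γ, ∀ z : ℍ, γ • z = z → γ = 1)
    [ProperlyDiscontinuousSMul Γ ℍ]
    (G : Type) [Group G] [TopologicalSpace G] [DiscreteTopology G]
    (φ : Γ →* G) (hφ : Function.Surjective φ)
    (X : Type) [TopologicalSpace X] [CompactSpace X] [MulAction G X]
    (π : ℍ → X) (hπ : IsQuotientMap π)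
    (hfib : ∀ z w : ℍ, π z = π w ↔ ∃ γ : Γ, φ γ = 1 ∧ γ • z = w)
    (hact : ∀ (γ : Γ) (z : ℍ), φ γ • π z = π (γ • z))
    (k : ℕ) (h : SecatLe (endpoints G X) k) : 4 ≤ k := by
  by_contra hk
  obtain ⟨t, R, h1, h2, h3, h4⟩ :=
    Pool.Agent.Helper47.ETCCover.cover Γ hfree G φ hφ X π hπ hfib hact k h
  obtain ⟨D, hD⟩ := exists_cocompact hπ hfib
  refine core Γ hfree hD t h1 h2 (fun P ↦ ?_) R h4
  obtain ⟨S, hS1, hS2, hS3⟩ := h3 P
  exact ⟨S, by omega, hS2, hS3⟩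

end Pool.Agent.Helper93.ETC
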