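import Mathlib
import Pool.Agent.Helper93.ETC.Lower
import Pool.Agent.Helper47.ETCUpper

/-!
The effective topological complexity of the orientation double cover of a closed nonorientable
hyperbolic surface is four.
-/

open UpperHalfPlane MatrixGroups Matrix Topology Matrix.ProjGenLinGroup

namespace Pool.Agent.Helper93.ETC

/-- All free actions of finite groups on closed hyperbolic surfaces. -/
theorem main_general (Γ : Subgroup PGL(2, ℝ)) (hfree : ∀ γ ∈ Γ, ∀ z : ℍ, γ • z = z → γ = 1)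
    [ProperlyDiscontinuousSMul Γ ℍ]
    (G : Type) [Group G] [TopologicalSpace G] [DiscreteTopology G]
    (φ : Γ →* G) (hφ : Function.Surjective φ)
    (X : Type) [TopologicalSpace X] [CompactSpace X] [MulAction G X]
    (π : ℍ → X) (hπ : IsQuotientMap π)
    (hfib : ∀ z w : ℍ, π z = π w ↔ ∃ γ : Γ, φ γ = 1 ∧ γ • z = w)
    (hact : ∀ (γ : Γ) (z : ℍ), φ γ • π z = π (γ • z)) :
    IsLeast {k | SecatLe (endpoints G X) k} 4 :=
  ⟨Pool.Agent.Helper47.ETCUpper.upper Γ hfree G φ X π hπ hfib,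
    fun k hk ↦ lower Γ hfree G φ hφ X π hπ hfib hact k hk⟩

/-- The antipodal involution. -/
theorem main (Γ : Subgroup PGL(2, ℝ)) (hfree : ∀ γ ∈ Γ, ∀ z : ℍ, γ • z = z → γ = 1)
    [ProperlyDiscontinuousSMul Γ ℍ] (hor : ∃ γ ∈ Γ, signDet γ ≠ 1)
    (X : Type) [TopologicalSpace X] [CompactSpace X] [MulAction SignTypeˣ X]
    (π : ℍ → X) (hπ : IsQuotientMap π)
    (hfib : ∀ z w : ℍ, π z = π w ↔ ∃ γ ∈ Γ, signDet γ = 1 ∧ γ • z = w)
    (hact : ∀ γ ∈ Γ, ∀ z : ℍ, signDet γ • π z = π (γ • z)) :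
    IsLeast {k | SecatLe (endpoints SignTypeˣ X) k} 4 := by
  set φ : Γ →* SignTypeˣ := signDet.comp Γ.subtype with hφdef
  have hφ : Function.Surjective φ := by
    have key : ∀ a b : SignTypeˣ, a ≠ 1 → b ≠ 1 → a = b := by decide
    obtain ⟨γ, h1, h2⟩ := hor
    intro a
    by_cases ha : a = 1
    · exact ⟨1, by rw [ha, map_one]⟩
    · exact ⟨⟨γ, h1⟩, key _ _ h2 ha⟩
  have hfib' : ∀ z w : ℍ, π z = π w ↔ ∃ γ : Γ, φ γ = 1 ∧ γ • z = w := by
    intro z w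
    rw [hfib]
    constructor
    · rintro ⟨γ, h1, h2, h3⟩
      exact ⟨⟨γ, h1⟩, h2, h3⟩
    · rintro ⟨γ, h2, h3⟩
      exact ⟨γ, γ.2, h2, h3⟩
  exact main_general Γ hfree SignTypeˣ φ hφ X π hπ hfib' fun γ z ↦ hact γ γ.2 z

end Pool.Agent.Helper93.ETC
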